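import Mathlib
import Pool.Agent.H301R2.TR.N1Core

/-!
Growth of the parameters in the quantitative theorem.
-/

set_option autoImplicit false

namespace Pool.Agent.Y928.QN

open Finset Pool.Agent.H301R2.TR

/-- number of monomials -/
noncomputable def NN (κ n : ℕ) : ℝ :=
  (((n ^ (11 * κ + 4) + 1) * ((n ^ (11 * κ + 4) + 1) *
    ((2 * n ^ (7 * κ + 2) + 1) * (2 * n ^ (7 * κ + 2) + 1))) : ℕ) : ℝ)

/-- the part of the size of the entries that does not depend on the heights -/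
noncomputable def BB (κ c n : ℕ) (R : ℝ) : ℝ :=
  ((((2 * n ^ (7 * κ + 2) : ℕ) : ℝ) + ((n ^ (11 * κ + 4) : ℕ) : ℝ)) ^
      (4 * ((2 * c + 1) * n ^ (12 * κ + 3))) *
    (4 * ((n ^ (4 * κ + 2) : ℕ) : ℝ) * R) ^ (n ^ (11 * κ + 4))) ^ 2

/-- the analytic bound -/
noncomputable def CC (κ c n : ℕ) (C2 : ℝ) : ℝ :=
  (3 + 1) * (2 * E1 (n ^ (11 * κ + 4) + 4 * ((2 * c + 1) * n ^ (12 * κ + 3)))
    (8 * C2 ^ 2 * (n : ℝ) ^ (12 * κ + 3))) ^ 3

theorem good_NN (κ : ℕ) : Good (12 * κ + 3) (fun n => NN κ n) := by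
  have h1 : Good (12 * κ + 3) (fun n : ℕ => (36 : ℝ) * (n : ℝ) ^ (36 * κ + 12)) :=
    (Good.const 36 (by norm_num)).mul (Good.natPow _)
  refine h1.mono (fun n hn => ?_) (fun n hn => ?_)
  · unfold NN
    have : 1 ≤ (n ^ (11 * κ + 4) + 1) * ((n ^ (11 * κ + 4) + 1) *
      ((2 * n ^ (7 * κ + 2) + 1) * (2 * n ^ (7 * κ + 2) + 1))) := by
      apply Nat.succ_le_of_lt; positivity
    exact_mod_cast this
  · unfold NN
    have hn1 : (1 : ℝ) ≤ n := by exact_mod_cast hn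
    have a1 : (1 : ℝ) ≤ (n : ℝ) ^ (11 * κ + 4) := one_le_pow₀ hn1
    have a2 : (1 : ℝ) ≤ (n : ℝ) ^ (7 * κ + 2) := one_le_pow₀ hn1
    push_cast
    calc ((n : ℝ) ^ (11 * κ + 4) + 1) * (((n : ℝ) ^ (11 * κ + 4) + 1) *
          ((2 * (n : ℝ) ^ (7 * κ + 2) + 1) * (2 * (n : ℝ) ^ (7 * κ + 2) + 1)))
        ≤ ((n : ℝ) ^ (11 * κ + 4) + (n : ℝ) ^ (11 * κ + 4)) *
          (((n : ℝ) ^ (11 * κ + 4) + (n : ℝ) ^ (11 * κ + 4)) *
          ((2 * (n : ℝ) ^ (7 * κ + 2) + (n : ℝ) ^ (7 * κ + 2)) *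
            (2 * (n : ℝ) ^ (7 * κ + 2) + (n : ℝ) ^ (7 * κ + 2)))) := by gcongr
      _ = 36 * (((n : ℝ) ^ (11 * κ + 4)) ^ 2 * ((n : ℝ) ^ (7 * κ + 2)) ^ 2) := by ring
      _ = _ := by rw [← pow_mul, ← pow_mul, ← pow_add]; congr 2; ring

theorem good_BB (κ c : ℕ) (hκ : 1 ≤ κ) (R : ℝ) (hR : 1 ≤ R) :
    Good (12 * κ + 3) (fun n => BB κ c n R) := by
  have hB1 : Good (12 * κ + 3) (fun n : ℕ =>
      (((2 * n ^ (7 * κ + 2) : ℕ) : ℝ) + ((n ^ (11 * κ + 4) : ℕ) : ℝ)) ^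
      (4 * ((2 * c + 1) * n ^ (12 * κ + 3)))) := by
    refine Good.powVar
      (f := fun n : ℕ => (((2 * n ^ (7 * κ + 2) : ℕ) : ℝ) + ((n ^ (11 * κ + 4) : ℕ) : ℝ))) ?_
      (fun n => 4 * ((2 * c + 1) * n ^ (12 * κ + 3))) (4 * (2 * c + 1)) ?_
    · have h1 : Good 0 (fun n : ℕ => (3 : ℝ) * (n : ℝ) ^ (11 * κ + 4)) :=
        (Good.const 3 (by norm_num)).mul (Good.natPow _)
      refine h1.mono (fun n hn => ?_) (fun n hn => ?_)
      · have hn1 : (1 : ℝ) ≤ n := by exact_mod_cast hn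
        have a1 : (1 : ℝ) ≤ (n : ℝ) ^ (11 * κ + 4) := one_le_pow₀ hn1
        push_cast
        have : (0 : ℝ) ≤ (n : ℝ) ^ (7 * κ + 2) := by positivity
        linarith
      · have hn1 : (1 : ℝ) ≤ n := by exact_mod_cast hn
        have a1 : (n : ℝ) ^ (7 * κ + 2) ≤ (n : ℝ) ^ (11 * κ + 4) :=
          pow_le_pow_right₀ hn1 (by omega)
        push_cast
        linarith
    · intro n _
      push_cast
      apply le_of_eq; ring
  have hB2 : Good (12 * κ + 3) (fun n : ℕ =>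
      (4 * ((n ^ (4 * κ + 2) : ℕ) : ℝ) * R) ^ (n ^ (11 * κ + 4))) := by
    refine Good.powVar (f := fun n : ℕ => (4 * ((n ^ (4 * κ + 2) : ℕ) : ℝ) * R)) ?_
      (fun n => n ^ (11 * κ + 4)) 1 ?_
    · have h1 : Good 0 (fun n : ℕ => (4 * R : ℝ) * (n : ℝ) ^ (4 * κ + 2)) :=
        (Good.const (4 * R) (by linarith)).mul (Good.natPow _)
      refine h1.mono (fun n hn => ?_) (fun n hn => ?_)
      · have hn1 : (1 : ℝ) ≤ n := by exact_mod_cast hn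
        have a1 : (1 : ℝ) ≤ (n : ℝ) ^ (4 * κ + 2) := one_le_pow₀ hn1
        push_cast
        nlinarith
      · push_cast
        apply le_of_eq; ring
    · intro n hn
      have hn1 : (1 : ℝ) ≤ n := by exact_mod_cast hn
      push_cast
      rw [one_mul]
      exact pow_le_pow_right₀ hn1 (by omega)
  exact (hB1.mul hB2).pow 2

theorem good_CC (κ c : ℕ) (hκ : 1 ≤ κ) (C2 : ℝ) (hC2 : 1 ≤ C2) :
    Good (12 * κ + 3) (fun n => CC κ c n C2) := by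
  have hE : Good (12 * κ + 3) (fun n : ℕ =>
      E1 (n ^ (11 * κ + 4) + 4 * ((2 * c + 1) * n ^ (12 * κ + 3)))
        (8 * C2 ^ 2 * (n : ℝ) ^ (12 * κ + 3))) := by
    unfold E1
    apply Good.mul
    · refine Good.factorial (fun n => n ^ (11 * κ + 4) + 4 * ((2 * c + 1) * n ^ (12 * κ + 3)))
        (8 * c + 5) ?_ ?_
      · intro n hn
        have : 1 ≤ n ^ (11 * κ + 4) := Nat.one_le_pow _ _ hn
        omega
      · intro n hn
        have hn1 : (1 : ℝ) ≤ n := by exact_mod_cast hn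
        have a1 : (n : ℝ) ^ (11 * κ + 4) ≤ (n : ℝ) ^ (12 * κ + 3) :=
          pow_le_pow_right₀ hn1 (by omega)
        push_cast
        calc (n : ℝ) ^ (11 * κ + 4) + 4 * ((2 * c + 1) * (n : ℝ) ^ (12 * κ + 3))
            ≤ (n : ℝ) ^ (12 * κ + 3) + 4 * ((2 * c + 1) * (n : ℝ) ^ (12 * κ + 3)) := by
              linarith
          _ = _ := by ring
    · refine Good.exp _ (48 * C2 ^ 2) ?_ ?_
      · intro n _; positivity
      · intro n _; apply le_of_eq; ring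
  exact (Good.const (u := 12 * κ + 3) (3 + 1) (by norm_num)).mul
    (((Good.const (u := 12 * κ + 3) 2 (by norm_num)).mul hE).pow 3)

theorem growthQ (κ c Dg : ℕ) (hκ : 1 ≤ κ) (R C2 : ℝ) (hR : 1 ≤ R) (hC2 : 1 ≤ C2) :
    ∃ n0 : ℕ, ∀ n ≥ n0, 1 ≤ n →
      ((2 * NN κ n * CC κ c n C2 * (NN κ n * BB κ c n R) ^ Dg) ^ 2) ^ 2 <
        2 ^ (n ^ (12 * κ + 4)) ∧
      BB κ c n R * (R ^ (12 * (n ^ (4 * κ + 2) * (2 * n ^ (7 * κ + 2)))) *
        (((n ^ (11 * κ + 4) : ℕ) : ℝ) +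
          12 * (((n ^ (4 * κ + 2) : ℕ) : ℝ) * ((2 * n ^ (7 * κ + 2) : ℕ) : ℝ)))) ≤
        2 ^ (n ^ (12 * κ + 4)) := by
  have hN := good_NN κ
  have hB := good_BB κ c hκ R hR
  have hC := good_CC κ c hκ C2 hC2
  have h1 := ((((Good.const (u := 12 * κ + 3) 2 (by norm_num)).mul hN).mul hC).mul
    ((hN.mul hB).pow Dg)).pow 2
  obtain ⟨n1, hn1⟩ := h1.eventually_lt
  have hR3 : Good (12 * κ + 3) (fun n : ℕ => R ^ (12 * (n ^ (4 * κ + 2) * (2 * n ^ (7 * κ + 2))))) := by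
    refine Good.powVar (Good.const _ hR) (fun n => 12 * (n ^ (4 * κ + 2) * (2 * n ^ (7 * κ + 2))))
      24 ?_
    intro n hn
    have hn1 : (1 : ℝ) ≤ n := by exact_mod_cast hn
    push_cast
    calc 12 * ((n : ℝ) ^ (4 * κ + 2) * (2 * (n : ℝ) ^ (7 * κ + 2)))
        = 24 * (n : ℝ) ^ ((4 * κ + 2) + (7 * κ + 2)) := by rw [pow_add]; ring
      _ ≤ 24 * (n : ℝ) ^ (12 * κ + 3) := by
        apply mul_le_mul_of_nonneg_left _ (by norm_num)
        exact pow_le_pow_right₀ hn1 (by omega)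
  have hK : Good (12 * κ + 3) (fun n : ℕ => ((n ^ (11 * κ + 4) : ℕ) : ℝ) +
      12 * (((n ^ (4 * κ + 2) : ℕ) : ℝ) * ((2 * n ^ (7 * κ + 2) : ℕ) : ℝ))) := by
    have h1 : Good (12 * κ + 3) (fun n : ℕ => (25 : ℝ) * (n : ℝ) ^ (11 * κ + 4)) :=
      (Good.const 25 (by norm_num)).mul (Good.natPow _)
    refine h1.mono (fun n hn => ?_) (fun n hn => ?_)
    · have hn1 : (1 : ℝ) ≤ n := by exact_mod_cast hn
      have a1 : (1 : ℝ) ≤ (n : ℝ) ^ (11 * κ + 4) := one_le_pow₀ hn1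
      push_cast
      have : (0 : ℝ) ≤ (n : ℝ) ^ (4 * κ + 2) * (2 * (n : ℝ) ^ (7 * κ + 2)) := by positivity
      linarith
    · push_cast
      apply le_of_eq
      have : (n : ℝ) ^ (11 * κ + 4) = (n : ℝ) ^ (4 * κ + 2) * (n : ℝ) ^ (7 * κ + 2) := by
        rw [← pow_add]; congr 1; ring
      rw [this]; ring
  have h2 := hB.mul (hR3.mul hK)
  obtain ⟨n2, hn2⟩ := h2.eventually_lt
  obtain ⟨C', hC', h2'⟩ := h2
  refine ⟨max n1 n2, fun n hn hn0 => ⟨?_, ?_⟩⟩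
  · exact hn1 n ((le_max_left _ _).trans hn) hn0
  · have g1 := hn2 n ((le_max_right _ _).trans hn) hn0
    have g2 := (h2' n hn0).1
    refine le_trans ?_ g1.le
    have g3 := le_self_pow₀ g2 (n := 2) (by norm_num)
    exact g3

end Pool.Agent.Y928.QN
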