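import Mathlib
import Pool.Agent.H301R2.TR.N1Core

/-!
Continuity of the entries of the interpolation matrix, with explicit constants.
-/

set_option autoImplicit false

namespace Pool.Agent.Y928.QN

open Finset Pool.Agent.H301R2.TR

/-- `x` and `y` have norm at most `B` and differ by at most `B * δ` -/
def Near (B δ : ℝ) (x y : ℂ) : Prop := ‖x‖ ≤ B ∧ ‖y‖ ≤ B ∧ ‖x - y‖ ≤ B * δ

theorem Near.mul {B B' δ δ' : ℝ} {x y x' y' : ℂ} (h : Near B δ x y) (h' : Near B' δ' x' y') :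
    Near (B * B') (δ + δ') (x * x') (y * y') := by
  obtain ⟨h1, h2, h3⟩ := h
  obtain ⟨g1, g2, g3⟩ := h'
  have hB : 0 ≤ B := (norm_nonneg _).trans h1
  have hB' : 0 ≤ B' := (norm_nonneg _).trans g1
  refine ⟨?_, ?_, ?_⟩
  · rw [norm_mul]; exact mul_le_mul h1 g1 (norm_nonneg _) hB
  · rw [norm_mul]; exact mul_le_mul h2 g2 (norm_nonneg _) hB
  · have e : x * x' - y * y' = (x - y) * x' + y * (x' - y') := by ring
    rw [e]
    refine (norm_add_le _ _).trans ?_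
    rw [norm_mul, norm_mul]
    have a1 : ‖x - y‖ * ‖x'‖ ≤ (B * δ) * B' :=
      mul_le_mul h3 g1 (norm_nonneg _) ((norm_nonneg _).trans h3)
    have a2 : ‖y‖ * ‖x' - y'‖ ≤ B * (B' * δ') := mul_le_mul h2 g3 (norm_nonneg _) hB
    calc ‖x - y‖ * ‖x'‖ + ‖y‖ * ‖x' - y'‖ ≤ (B * δ) * B' + B * (B' * δ') := add_le_add a1 a2
      _ = _ := by ring

theorem Near.refl {B : ℝ} {x : ℂ} (h : ‖x‖ ≤ B) : Near B 0 x x := by
  refine ⟨h, h, ?_⟩
  simp

theorem Near.pow {B δ : ℝ} {x y : ℂ} (h : Near B δ x y) (n : ℕ) :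
    Near (B ^ n) (n * δ) (x ^ n) (y ^ n) := by
  induction n with
  | zero => simpa using (Near.refl (B := 1) (x := 1) (by simp))
  | succ n ih =>
    have := ih.mul h
    have e1 : B ^ n * B = B ^ (n + 1) := (pow_succ B n).symm
    have e2 : (n : ℝ) * δ + δ = ((n + 1 : ℕ) : ℝ) * δ := by push_cast; ring
    rw [e1, e2, ← pow_succ, ← pow_succ] at this
    exact this

theorem Near.mono {B B' δ δ' : ℝ} {x y : ℂ} (h : Near B δ x y) (hδ : 0 ≤ δ) (hB : B ≤ B')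
    (hδ' : δ ≤ δ') : Near B' δ' x y := by
  obtain ⟨h1, h2, h3⟩ := h
  have hB0 : 0 ≤ B := (norm_nonneg _).trans h1
  refine ⟨h1.trans hB, h2.trans hB, h3.trans ?_⟩
  exact mul_le_mul hB hδ' hδ (hB0.trans hB)

theorem near_sum {ι : Type*} (s : Finset ι) (x y : ι → ℂ) (B : ι → ℝ) (δ : ℝ)
    (h : ∀ i ∈ s, Near (B i) δ (x i) (y i)) : Near (∑ i ∈ s, B i) δ (∑ i ∈ s, x i) (∑ i ∈ s, y i) := by
  refine ⟨?_, ?_, ?_⟩
  · exact (norm_sum_le _ _).trans (Finset.sum_le_sum fun i hi => (h i hi).1)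
  · exact (norm_sum_le _ _).trans (Finset.sum_le_sum fun i hi => (h i hi).2.1)
  · rw [← Finset.sum_sub_distrib, Finset.sum_mul]
    exact (norm_sum_le _ _).trans (Finset.sum_le_sum fun i hi => (h i hi).2.2)

theorem near_LamR (k m t : ℕ) (x y : ℂ) (X δ : ℝ) (hX : 1 ≤ X) (hδ : 0 ≤ δ) (h : Near X δ x y) :
    Near (((m : ℝ) + k) ^ t * X ^ k) (k * δ) (LamR k m t x) (LamR k m t y) := by
  unfold LamR
  rw [add_comm (m : ℝ) k, add_pow, Finset.sum_mul]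
  apply near_sum
  intro j hj
  have h1 : ((k.descFactorial j : ℕ) : ℝ) ≤ (k : ℝ) ^ j := by
    exact_mod_cast Nat.descFactorial_le_pow k j
  have h2 : Near (X ^ k) (k * δ) (x ^ (k - j)) (y ^ (k - j)) := by
    refine (h.pow (k - j)).mono (by positivity) (pow_le_pow_right₀ hX (by omega)) ?_
    have : ((k - j : ℕ) : ℝ) ≤ (k : ℝ) := by exact_mod_cast Nat.sub_le k j
    exact mul_le_mul_of_nonneg_right this hδ
  have h3 : Near ((t.choose j : ℝ) * (m : ℝ) ^ (t - j) * (k : ℝ) ^ j) 0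
      ((t.choose j : ℂ) * (-(m : ℂ)) ^ (t - j) * (k.descFactorial j : ℂ))
      ((t.choose j : ℂ) * (-(m : ℂ)) ^ (t - j) * (k.descFactorial j : ℂ)) := by
    apply Near.refl
    rw [norm_mul, norm_mul, norm_pow, norm_neg, Complex.norm_natCast,
      Complex.norm_natCast, Complex.norm_natCast]
    gcongr
  have h4 := h3.mul h2
  rw [zero_add] at h4
  have e : (t.choose j : ℝ) * (m : ℝ) ^ (t - j) * (k : ℝ) ^ j * X ^ k =
      (k : ℝ) ^ j * (m : ℝ) ^ (t - j) * (t.choose j : ℝ) * X ^ k := by ring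
  rwa [e] at h4

/-- the entries are Lipschitz functions of the four parameters -/
theorem entry1_near {q r A D q' r' A' D' : ℂ} {R0 ε : ℝ} (hR0 : 1 ≤ R0) (hε : 0 ≤ ε)
    (hq : Near R0 ε q q') (hr : Near R0 ε r r') (hA : Near R0 ε A A') (hD : Near R0 ε D D')
    (K M S T : ℕ) (hK : 1 ≤ K) (hS : 1 ≤ S)
    {k1 k2 m1 m2 t1 t2 s1 s2 s3 : ℕ} (hk1 : k1 ≤ K) (hk2 : k2 ≤ K) (hm1 : m1 ≤ M) (hm2 : m2 ≤ M)
    (ht1 : t1 ≤ 4 * T) (ht2 : t2 ≤ 4 * T)
    (hs1 : s1 ≤ 4 * S) (hs2 : s2 ≤ 4 * S) (hs3 : s3 ≤ 4 * S) :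
    ‖entry1 q r A D k1 k2 m1 m2 t1 t2 s1 s2 s3 - entry1 q' r' A' D' k1 k2 m1 m2 t1 t2 s1 s2 s3‖ ≤
      (((M : ℝ) + K) ^ (4 * T) * (4 * S * R0) ^ K) ^ 2 * R0 ^ (12 * (S * M)) *
        ((K + 12 * (S * M)) * ε) := by
  have hS' : (1 : ℝ) ≤ S := by exact_mod_cast hS
  have hK' : (1 : ℝ) ≤ K := by exact_mod_cast hK
  have hX : (1 : ℝ) ≤ 4 * S * R0 := by nlinarith
  have hMK : (1 : ℝ) ≤ (M : ℝ) + K := by
    have : (0 : ℝ) ≤ M := Nat.cast_nonneg _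
    linarith
  have hlam : ∀ (k m t : ℕ) (x y : ℂ) (δ : ℝ), 0 ≤ δ → k ≤ K → m ≤ M → t ≤ 4 * T →
      Near (4 * S * R0) δ x y →
      Near (((M : ℝ) + K) ^ (4 * T) * (4 * S * R0) ^ K) (K * δ) (LamR k m t x) (LamR k m t y) := by
    intro k m t x y δ hδ hk hm ht hx
    refine (near_LamR k m t x y (4 * S * R0) δ hX hδ hx).mono (by positivity) ?_ ?_
    · have h1 : ((m : ℝ) + k) ^ t ≤ ((M : ℝ) + K) ^ (4 * T) := by
        have h2 : (m : ℝ) + k ≤ (M : ℝ) + K := by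
          have : (m : ℝ) ≤ M := by exact_mod_cast hm
          have : (k : ℝ) ≤ K := by exact_mod_cast hk
          linarith
        calc ((m : ℝ) + k) ^ t ≤ ((M : ℝ) + K) ^ t := pow_le_pow_left₀ (by positivity) h2 _
          _ ≤ _ := pow_le_pow_right₀ hMK ht
      have h3 : (4 * S * R0) ^ k ≤ (4 * S * R0) ^ K := pow_le_pow_right₀ hX hk
      gcongr
    · have : (k : ℝ) ≤ K := by exact_mod_cast hk
      exact mul_le_mul_of_nonneg_right this hδ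
  have hx1 : Near (4 * S * R0) 0 ((s1 : ℕ) : ℂ) ((s1 : ℕ) : ℂ) := by
    apply Near.refl
    rw [Complex.norm_natCast]
    have : (s1 : ℝ) ≤ 4 * S := by exact_mod_cast hs1
    nlinarith
  have hx2 : Near (4 * S * R0) ε (q * ((s2 : ℕ) : ℂ)) (q' * ((s2 : ℕ) : ℂ)) := by
    have h1 : (s2 : ℝ) ≤ 4 * S := by exact_mod_cast hs2
    have h2 : Near (4 * S) 0 ((s2 : ℕ) : ℂ) ((s2 : ℕ) : ℂ) := by
      apply Near.refl
      rw [Complex.norm_natCast]
      exact h1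
    have h3 := hq.mul h2
    rw [add_zero] at h3
    have e : R0 * (4 * (S : ℝ)) = 4 * S * R0 := by ring
    rwa [e] at h3
  have h1 := hlam k1 m1 t1 _ _ 0 le_rfl hk1 hm1 ht1 hx1
  have h2 := hlam k2 m2 t2 _ _ ε hε hk2 hm2 ht2 hx2
  have hneg : Near 1 0 ((-1 : ℂ) ^ s2) ((-1 : ℂ) ^ s2) := by
    apply Near.refl
    rw [norm_pow, norm_neg, norm_one, one_pow]
  have h3 : Near (R0 ^ (4 * (S * M))) (4 * (S * M) * ε) (((-1 : ℂ) ^ s2 * r ^ s3) ^ m1)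
      (((-1 : ℂ) ^ s2 * r' ^ s3) ^ m1) := by
    have g1 := (hneg.mul (hr.pow s3)).pow m1
    have g2 : s3 * m1 ≤ 4 * (S * M) := by
      calc s3 * m1 ≤ (4 * S) * M := Nat.mul_le_mul hs3 hm1
        _ = _ := by ring
    refine g1.mono (by positivity) ?_ ?_
    · rw [one_mul, ← pow_mul]
      exact pow_le_pow_right₀ hR0 g2
    · have g3 : (s3 : ℝ) * m1 ≤ 4 * (S * M) := by exact_mod_cast g2
      calc (m1 : ℝ) * (0 + s3 * ε) = (s3 * m1) * ε := by ring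
        _ ≤ _ := mul_le_mul_of_nonneg_right g3 hε
  have h4 : Near (R0 ^ (8 * (S * M))) (8 * (S * M) * ε) ((A ^ s1 * D ^ s3) ^ m2)
      ((A' ^ s1 * D' ^ s3) ^ m2) := by
    have g1 := ((hA.pow s1).mul (hD.pow s3)).pow m2
    have g2 : s1 * m2 ≤ 4 * (S * M) := by
      calc s1 * m2 ≤ (4 * S) * M := Nat.mul_le_mul hs1 hm2
        _ = _ := by ring
    have g2' : s3 * m2 ≤ 4 * (S * M) := by
      calc s3 * m2 ≤ (4 * S) * M := Nat.mul_le_mul hs3 hm2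
        _ = _ := by ring
    refine g1.mono (by positivity) ?_ ?_
    · rw [← pow_add, ← pow_mul]
      apply pow_le_pow_right₀ hR0
      calc (s1 + s3) * m2 = s1 * m2 + s3 * m2 := by ring
        _ ≤ _ := by omega
    · have g3 : (s1 : ℝ) * m2 ≤ 4 * (S * M) := by exact_mod_cast g2
      have g3' : (s3 : ℝ) * m2 ≤ 4 * (S * M) := by exact_mod_cast g2'
      calc (m2 : ℝ) * (s1 * ε + s3 * ε) = (s1 * m2 + s3 * m2) * ε := by ring
        _ ≤ (8 * (S * M)) * ε := by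
          apply mul_le_mul_of_nonneg_right _ hε
          linarith
  have h5 := ((h1.mul h2).mul h3).mul h4
  unfold entry1
  refine h5.2.2.trans (le_of_eq ?_)
  have e1 : R0 ^ (12 * (S * M)) = R0 ^ (4 * (S * M)) * R0 ^ (8 * (S * M)) := by
    rw [← pow_add]; congr 1; ring
  rw [e1]
  ring

end Pool.Agent.Y928.QN
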