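import Mathlib
import Pool.Agent.H301R2.TR.Vanish

/-!
Interpolation determinants whose entries are only close to the values of the analytic functions.
-/

set_option autoImplicit false

namespace Pool.Agent.Y928.QN

open Finset Matrix Pool.Agent.H301R2.TR

/-- Upper bound for perturbed interpolation determinants. -/
theorem det_upper_pert {L J : Type*} [Fintype L] [Fintype J] [DecidableEq J] [DecidableEq L]
    (k : J → L → ℕ) (a : J → L → ℂ) (t : J → L → ℕ) (w : J → L → ℂ)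
    (H Q : ℕ) (X W : L → ℝ) (Y : ℝ)
    (hX : ∀ l, 1 ≤ X l) (hW : ∀ l, 1 ≤ W l) (hXW : ∀ l, X l * W l ≤ Y)
    (ha : ∀ j l, ‖a j l‖ ≤ X l) (hw : ∀ i l, ‖w i l‖ ≤ W l)
    (hH : ∀ j i l, k j l + t i l ≤ H) (hY : 0 ≤ Y) (F' : Matrix J J ℂ)
    (hF' : ∀ j i, ‖F' j i - ∏ l, (LamC (a j l) (k j l) (t i l) (w i l)
        * Complex.exp (a j l * w i l))‖ ≤ (1 / 2 : ℝ) ^ Q) :
    ‖F'.det‖ ≤
      2 ^ (Fintype.card J) * (Nat.factorial (Fintype.card J) : ℝ)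
      * ((Fintype.card L + 1) * (2 * E1 H Y) ^ (Fintype.card L)) ^ (Fintype.card J)
      * ((1 / 2 : ℝ) ^ Q) ^ (Fintype.card J - Q ^ (Fintype.card L)) := by
  -- the low rank part
  let U : Matrix J (L → Fin Q) ℂ := fun j κ => ∏ l, coef (a j l) (k j l) (κ l)
  let V : Matrix (L → Fin Q) J ℂ := fun κ i =>
    ∏ l, ((((κ l : ℕ)).descFactorial (t i l) : ℂ) * w i l ^ ((κ l : ℕ) - t i l))
  have hUV : ∀ j i, (U * V) j i = ∏ l, trunc Q (a j l) (k j l) (t i l) (w i l) := by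
    intro j i
    simp only [Matrix.mul_apply, U, V, trunc]
    rw [Finset.prod_univ_sum, Fintype.piFinset_univ]
    apply Finset.sum_congr rfl
    intro κ _
    rw [← Finset.prod_mul_distrib]
  have hE1 : 1 ≤ E1 H Y := E1_one_le H Y hY
  have hB : (1 : ℝ) ≤ 2 * E1 H Y := by linarith
  have hB0 : (0 : ℝ) ≤ 2 * E1 H Y := by linarith
  have hlb := fun j i l => lam_bounds (a j l) (w i l) (k j l) (t i l) H (X l) (W l) Y (hX l) (hW l)
    (ha j l) (hw i l) (hXW l) (hH j i l) Q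
  have hpow : (1 : ℝ) ≤ (2 * E1 H Y) ^ (Fintype.card L) := one_le_pow₀ hB
  have hcardL : (0 : ℝ) ≤ (Fintype.card L : ℝ) := Nat.cast_nonneg _
  have hmain := norm_det_low_rank_le U V (F' - U * V)
    ((Fintype.card L + 1) * (2 * E1 H Y) ^ (Fintype.card L)) ((1 / 2 : ℝ) ^ Q)
    (by nlinarith) (by positivity) (pow_le_one₀ (by norm_num) (by norm_num)) ?_ ?_
  · have e : U * V + (F' - U * V) = F' := by abel
    rw [e] at hmain
    have e2 : Fintype.card (L → Fin Q) = Q ^ Fintype.card L := by simp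
    rw [e2] at hmain
    exact hmain
  · intro j i
    rw [hUV, norm_prod]
    calc ∏ l, ‖trunc Q (a j l) (k j l) (t i l) (w i l)‖ ≤ ∏ _l : L, (2 * E1 H Y) :=
          Finset.prod_le_prod (fun _ _ => norm_nonneg _) (fun l _ => (hlb j i l).2.1)
      _ = (2 * E1 H Y) ^ (Fintype.card L) := by rw [Finset.prod_const, Finset.card_univ]
      _ ≤ _ := by nlinarith
  · intro j i
    have e1 : (F' - U * V) j i = (F' j i - (∏ l, (LamC (a j l) (k j l) (t i l) (w i l)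
        * Complex.exp (a j l * w i l)))) + ((∏ l, (LamC (a j l) (k j l) (t i l) (w i l)
        * Complex.exp (a j l * w i l))) - ∏ l, trunc Q (a j l) (k j l) (t i l) (w i l)) := by
      rw [← hUV]
      simp only [Matrix.sub_apply]
      ring
    rw [e1]
    refine (norm_add_le _ _).trans ?_
    have := norm_prod_sub_prod_le (Finset.univ : Finset L)
      (fun l => LamC (a j l) (k j l) (t i l) (w i l) * Complex.exp (a j l * w i l))
      (fun l => trunc Q (a j l) (k j l) (t i l) (w i l)) (2 * E1 H Y) ((1 / 2) ^ Q) hB (by positivity)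
      (fun l _ => (hlb j i l).1) (fun l _ => (hlb j i l).2.1) (fun l _ => (hlb j i l).2.2)
    rw [Finset.card_univ] at this
    refine (add_le_add (hF' j i) this).trans ?_
    have h1 : (0 : ℝ) ≤ (1 / 2 : ℝ) ^ Q := by positivity
    have h2 : (1 / 2 : ℝ) ^ Q ≤ (2 * E1 H Y) ^ (Fintype.card L) * (1 / 2 : ℝ) ^ Q := by
      nlinarith
    have e3 : ((Fintype.card L : ℝ) + 1) * (2 * E1 H Y) ^ (Fintype.card L) * (1 / 2 : ℝ) ^ Q =
        (2 * E1 H Y) ^ (Fintype.card L) * (1 / 2 : ℝ) ^ Q +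
          (Fintype.card L : ℝ) * (2 * E1 H Y) ^ (Fintype.card L) * (1 / 2 : ℝ) ^ Q := by ring
    rw [e3]
    linarith

/-- Perturbed interpolation determinants with entries in a number field vanish, if the parameters
are well chosen. -/
theorem det_vanish_pert {K : Type*} [Field K] [NumberField K] (φ : K →ₐ[ℚ] ℂ)
    {L J : Type*} [Fintype L] [Fintype J] [DecidableEq J] [DecidableEq L]
    (k : J → L → ℕ) (a : J → L → ℂ) (t : J → L → ℕ) (w : J → L → ℂ)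
    (H Q : ℕ) (X W : L → ℝ) (Y : ℝ)
    (hX : ∀ l, 1 ≤ X l) (hW : ∀ l, 1 ≤ W l) (hXW : ∀ l, X l * W l ≤ Y)
    (ha : ∀ j l, ‖a j l‖ ≤ X l) (hw : ∀ i l, ‖w i l‖ ≤ W l)
    (hH : ∀ j i l, k j l + t i l ≤ H) (hY : 0 ≤ Y)
    (e : Matrix J J K) (d h : ℕ) (hd : 0 < d) (B : ℝ)
    (hB : 1 ≤ B) (hint : ∀ j i, IsIntegral ℤ ((d : K) ^ h * e j i))
    (hbd : ∀ σ : K →ₐ[ℚ] ℂ, ∀ j i, ‖σ (e j i)‖ ≤ B)
    (he : ∀ j i, ‖φ (e j i) - ∏ l, (LamC (a j l) (k j l) (t i l) (w i l)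
        * Complex.exp (a j l * w i l))‖ ≤ (1 / 2 : ℝ) ^ Q)
    (hJ : 0 < Fintype.card J) (hN : 2 * Q ^ Fintype.card L ≤ Fintype.card J)
    (hlarge : (2 * (Fintype.card J : ℝ) * ((Fintype.card L + 1) * (2 * E1 H Y) ^ (Fintype.card L))
      * ((d : ℝ) ^ h) ^ (Module.finrank ℚ K)
      * ((Fintype.card J : ℝ) * B) ^ (Module.finrank ℚ K)) ^ 2 < 2 ^ Q) :
    e.det = 0 := by
  by_contra hne
  have hlow := det_lower φ e d h hd B hB hint hbd hne
  have hup := det_upper_pert k a t w H Q X W Y hX hW hXW ha hw hH hY (fun j i => φ (e j i)) he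
  have e1 : φ e.det = Matrix.det (fun j i : J => φ (e j i)) := RingHom.map_det (φ : K →+* ℂ) e
  rw [← e1] at hup
  set N := Fintype.card J with hNdef
  set D := Module.finrank ℚ K with hD
  set C : ℝ := ((Fintype.card L + 1) * (2 * E1 H Y) ^ (Fintype.card L)) with hC
  have hE1 : 1 ≤ E1 H Y := E1_one_le H Y hY
  have hC1 : 1 ≤ C := by
    have h1 : (1 : ℝ) ≤ (2 * E1 H Y) ^ (Fintype.card L) := one_le_pow₀ (by linarith)
    have h2 : (0 : ℝ) ≤ (Fintype.card L : ℝ) := Nat.cast_nonneg _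
    rw [hC]; nlinarith
  have hfac : (Nat.factorial N : ℝ) ≤ (N : ℝ) ^ N := by exact_mod_cast Nat.factorial_le_pow N
  have hd1 : (1 : ℝ) ≤ (d : ℝ) := by exact_mod_cast hd
  have hdh : (1 : ℝ) ≤ (d : ℝ) ^ h := one_le_pow₀ hd1
  have hN1 : (1 : ℝ) ≤ (N : ℝ) := by exact_mod_cast hJ
  set G : ℝ := 2 * (N : ℝ) * C * ((d : ℝ) ^ h) ^ D * ((N : ℝ) * B) ^ D with hG
  have hG0 : 0 < G := by rw [hG]; positivity
  -- combine
  have hcomb : 1 ≤ G ^ N * ((1 / 2 : ℝ) ^ Q) ^ (N - Q ^ Fintype.card L) := by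
    calc (1 : ℝ) ≤ ‖φ e.det‖ * ((d : ℝ) ^ h) ^ (N * D)
          * ((Nat.factorial N : ℝ) * B ^ N) ^ D := hlow
      _ ≤ (2 ^ N * (Nat.factorial N : ℝ) * C ^ N * ((1 / 2 : ℝ) ^ Q) ^ (N - Q ^ Fintype.card L))
          * ((d : ℝ) ^ h) ^ (N * D) * ((Nat.factorial N : ℝ) * B ^ N) ^ D := by
          gcongr
      _ ≤ (2 ^ N * (N : ℝ) ^ N * C ^ N * ((1 / 2 : ℝ) ^ Q) ^ (N - Q ^ Fintype.card L))
          * ((d : ℝ) ^ h) ^ (N * D) * ((N : ℝ) ^ N * B ^ N) ^ D := by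
          gcongr
      _ = G ^ N * ((1 / 2 : ℝ) ^ Q) ^ (N - Q ^ Fintype.card L) := by
          rw [hG]
          simp only [mul_pow, ← pow_mul]
          ring_nf
  have hsq : 1 ≤ (G ^ 2 * (1 / 2 : ℝ) ^ Q) ^ N := by
    have h1 : (1 : ℝ) ≤ (G ^ N * ((1 / 2 : ℝ) ^ Q) ^ (N - Q ^ Fintype.card L)) ^ 2 :=
      one_le_pow₀ hcomb
    have h2 : (((1 / 2 : ℝ) ^ Q) ^ (N - Q ^ Fintype.card L)) ^ 2 ≤ ((1 / 2 : ℝ) ^ Q) ^ N := by
      rw [← pow_mul]
      apply pow_le_pow_of_le_one (by positivity) (pow_le_one₀ (by norm_num) (by norm_num))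
      omega
    calc (1 : ℝ) ≤ (G ^ N * ((1 / 2 : ℝ) ^ Q) ^ (N - Q ^ Fintype.card L)) ^ 2 := h1
      _ = (G ^ N) ^ 2 * (((1 / 2 : ℝ) ^ Q) ^ (N - Q ^ Fintype.card L)) ^ 2 := by ring
      _ ≤ (G ^ N) ^ 2 * ((1 / 2 : ℝ) ^ Q) ^ N := by gcongr
      _ = (G ^ 2 * (1 / 2 : ℝ) ^ Q) ^ N := by
          rw [mul_pow (G ^ 2), pow_right_comm G 2 N]
  have hlt : G ^ 2 * (1 / 2 : ℝ) ^ Q < 1 := by
    have h2Q : (0 : ℝ) < 2 ^ Q := by positivity
    rw [one_div, inv_pow, ← div_eq_mul_inv, div_lt_one h2Q]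
    exact hlarge
  have : (G ^ 2 * (1 / 2 : ℝ) ^ Q) ^ N < 1 := pow_lt_one₀ (by positivity) hlt (by omega)
  linarith

end Pool.Agent.Y928.QN
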