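import Mathlib
import Pool.Agent.H301R2.TR.N1Main
import Pool.Agent.Y928.QN.Upper
import Pool.Agent.Y928.QN.Pert
import Pool.Agent.Y928.QN.Grow

/-!
The quantitative form of the theorem on `π E`, `exp ρ`, `exp E`, `exp (E ρ)`.
-/

set_option autoImplicit false

namespace Pool.Agent.Y928.QN

open Finset Matrix Pool.Agent.H301R2.TR

/-- the numerical conditions of the zero estimate -/
theorem numeric (c κ n : ℕ) (hκ : 1 ≤ κ) (hn : 2 ≤ n) :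
    c * n ^ (11 * κ + 4) < (2 * c + 1) * n ^ (12 * κ + 3) ∧
    c * (2 * n ^ (7 * κ + 2)) < (2 * c + 1) * n ^ (12 * κ + 3) ∧
    c * (n ^ (11 * κ + 4)) ^ 2 * (2 * n ^ (7 * κ + 2)) ^ 2 <
      ((2 * c + 1) * n ^ (12 * κ + 3)) ^ 2 * (n ^ (4 * κ + 2)) ^ 3 ∧
    c * (n ^ (11 * κ + 4)) ^ 2 * (2 * n ^ (7 * κ + 2)) <
      ((2 * c + 1) * n ^ (12 * κ + 3)) ^ 2 * (n ^ (4 * κ + 2)) ^ 2 ∧
    c * (n ^ (11 * κ + 4)) * (2 * n ^ (7 * κ + 2)) ^ 2 <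
      ((2 * c + 1) * n ^ (12 * κ + 3)) ^ 2 * (n ^ (4 * κ + 2)) ^ 2 ∧
    c * (n ^ (11 * κ + 4)) * (2 * n ^ (7 * κ + 2)) <
      ((2 * c + 1) * n ^ (12 * κ + 3)) * (n ^ (4 * κ + 2)) ^ 2 ∧
    c * (2 * n ^ (7 * κ + 2)) ^ 2 <
      ((2 * c + 1) * n ^ (12 * κ + 3)) * (n ^ (4 * κ + 2)) ^ 2 := by
  have hnpos : 0 < n := by omega
  have hp : ∀ a : ℕ, 0 < n ^ a := fun a => Nat.pow_pos hnpos
  have hmono : ∀ a b : ℕ, a ≤ b → n ^ a ≤ n ^ b := fun a b h => Nat.pow_le_pow_right hnpos h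
  refine ⟨?_, ?_, ?_, ?_, ?_, ?_, ?_⟩
  · have h1 := hmono (11 * κ + 4) (12 * κ + 3) (by omega)
    have h2 := hp (12 * κ + 3)
    nlinarith
  · have h1 := hmono (7 * κ + 2) (12 * κ + 3) (by omega)
    have h2 := hp (12 * κ + 3)
    nlinarith
  · have e1 : c * (n ^ (11 * κ + 4)) ^ 2 * (2 * n ^ (7 * κ + 2)) ^ 2 =
        (4 * c) * n ^ (36 * κ + 12) := by
      have : n ^ (36 * κ + 12) = (n ^ (11 * κ + 4)) ^ 2 * (n ^ (7 * κ + 2)) ^ 2 := by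
        rw [← pow_mul, ← pow_mul, ← pow_add]; congr 1; ring
      rw [this]; ring
    have e2 : ((2 * c + 1) * n ^ (12 * κ + 3)) ^ 2 * (n ^ (4 * κ + 2)) ^ 3 =
        (2 * c + 1) ^ 2 * n ^ (36 * κ + 12) := by
      have : n ^ (36 * κ + 12) = (n ^ (12 * κ + 3)) ^ 2 * (n ^ (4 * κ + 2)) ^ 3 := by
        rw [← pow_mul, ← pow_mul, ← pow_add]; congr 1; ring
      rw [this]; ring
    rw [e1, e2]
    apply Nat.mul_lt_mul_of_pos_right _ (hp _)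
    nlinarith
  · have e1 : c * (n ^ (11 * κ + 4)) ^ 2 * (2 * n ^ (7 * κ + 2)) =
        (2 * c) * n ^ (29 * κ + 10) := by
      have : n ^ (29 * κ + 10) = (n ^ (11 * κ + 4)) ^ 2 * (n ^ (7 * κ + 2)) := by
        rw [← pow_mul, ← pow_add]; congr 1; ring
      rw [this]; ring
    have e2 : ((2 * c + 1) * n ^ (12 * κ + 3)) ^ 2 * (n ^ (4 * κ + 2)) ^ 2 =
        (2 * c + 1) ^ 2 * n ^ (32 * κ + 10) := by
      have : n ^ (32 * κ + 10) = (n ^ (12 * κ + 3)) ^ 2 * (n ^ (4 * κ + 2)) ^ 2 := by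
        rw [← pow_mul, ← pow_mul, ← pow_add]; congr 1; ring
      rw [this]; ring
    rw [e1, e2]
    calc (2 * c) * n ^ (29 * κ + 10) ≤ (2 * c) * n ^ (32 * κ + 10) :=
          Nat.mul_le_mul_left _ (hmono _ _ (by omega))
      _ < _ := by
        apply Nat.mul_lt_mul_of_pos_right _ (hp _)
        nlinarith
  · have e1 : c * (n ^ (11 * κ + 4)) * (2 * n ^ (7 * κ + 2)) ^ 2 =
        (4 * c) * n ^ (25 * κ + 8) := by
      have : n ^ (25 * κ + 8) = (n ^ (11 * κ + 4)) * (n ^ (7 * κ + 2)) ^ 2 := by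
        rw [← pow_mul, ← pow_add]; congr 1; ring
      rw [this]; ring
    have e2 : ((2 * c + 1) * n ^ (12 * κ + 3)) ^ 2 * (n ^ (4 * κ + 2)) ^ 2 =
        (2 * c + 1) ^ 2 * n ^ (32 * κ + 10) := by
      have : n ^ (32 * κ + 10) = (n ^ (12 * κ + 3)) ^ 2 * (n ^ (4 * κ + 2)) ^ 2 := by
        rw [← pow_mul, ← pow_mul, ← pow_add]; congr 1; ring
      rw [this]; ring
    rw [e1, e2]
    calc (4 * c) * n ^ (25 * κ + 8) ≤ (4 * c) * n ^ (32 * κ + 10) :=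
          Nat.mul_le_mul_left _ (hmono _ _ (by omega))
      _ < _ := by
        apply Nat.mul_lt_mul_of_pos_right _ (hp _)
        nlinarith
  · have e1 : c * (n ^ (11 * κ + 4)) * (2 * n ^ (7 * κ + 2)) =
        (2 * c) * n ^ (18 * κ + 6) := by
      have : n ^ (18 * κ + 6) = (n ^ (11 * κ + 4)) * (n ^ (7 * κ + 2)) := by
        rw [← pow_add]; congr 1; ring
      rw [this]; ring
    have e2 : ((2 * c + 1) * n ^ (12 * κ + 3)) * (n ^ (4 * κ + 2)) ^ 2 =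
        (2 * c + 1) * n ^ (20 * κ + 7) := by
      have : n ^ (20 * κ + 7) = (n ^ (12 * κ + 3)) * (n ^ (4 * κ + 2)) ^ 2 := by
        rw [← pow_mul, ← pow_add]; congr 1; ring
      rw [this]; ring
    rw [e1, e2]
    calc (2 * c) * n ^ (18 * κ + 6) ≤ (2 * c) * n ^ (20 * κ + 7) :=
          Nat.mul_le_mul_left _ (hmono _ _ (by omega))
      _ < _ := by
        apply Nat.mul_lt_mul_of_pos_right _ (hp _)
        omega
  · have e1 : c * (2 * n ^ (7 * κ + 2)) ^ 2 = (2 * c) * (2 * n ^ (14 * κ + 4)) := by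
      have : n ^ (14 * κ + 4) = (n ^ (7 * κ + 2)) ^ 2 := by
        rw [← pow_mul]; congr 1; ring
      rw [this]; ring
    have e2 : ((2 * c + 1) * n ^ (12 * κ + 3)) * (n ^ (4 * κ + 2)) ^ 2 =
        (2 * c + 1) * n ^ (20 * κ + 7) := by
      have : n ^ (20 * κ + 7) = (n ^ (12 * κ + 3)) * (n ^ (4 * κ + 2)) ^ 2 := by
        rw [← pow_mul, ← pow_add]; congr 1; ring
      rw [this]; ring
    rw [e1, e2]
    calc (2 * c) * (2 * n ^ (14 * κ + 4)) ≤ (2 * c) * (n * n ^ (14 * κ + 4)) := by gcongr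
      _ = (2 * c) * n ^ (14 * κ + 5) := by ring
      _ ≤ (2 * c) * n ^ (20 * κ + 7) := Nat.mul_le_mul_left _ (hmono _ _ (by omega))
      _ < _ := by
        apply Nat.mul_lt_mul_of_pos_right _ (hp _)
        omega

/-- **Quantitative core.** -/
theorem coreQ (hZE : ZE1) (E ρ : ℝ) (κ Dg : ℕ) (hκ : 1 ≤ κ) :
    ∃ η : ℝ, 0 < η ∧ ∃ n0 : ℕ, ∀ n ≥ n0, ∀ (F : Type) [Field F] [NumberField F]
      (φ : F →ₐ[ℚ] ℂ), Module.finrank ℚ F ≤ Dg → ∀ (xq xR xA xD : F) (d : ℕ) (R0 : ℝ),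
      0 < d → 1 ≤ R0 → (d : ℝ) * R0 ≤ Real.exp (η * (n : ℝ) ^ κ) →
      IntD d 1 xq → IntD d 1 xR → IntD d 1 xA → IntD d 1 xD →
      (∀ σ : F →ₐ[ℚ] ℂ, ‖σ xq‖ ≤ R0 ∧ ‖σ xR‖ ≤ R0 ∧ ‖σ xA‖ ≤ R0 ∧ ‖σ xD‖ ≤ R0) →
      φ xA ≠ 0 → φ xD ≠ 0 → φ xR ≠ 0 → φ xq ≠ 0 →
      (∀ m : ℤ, φ xA ^ m = 1 → m = 0) → (∀ l m : ℤ, φ xR ^ l * φ xD ^ m = 1 → l = 0 ∧ m = 0) →
      ‖φ xq - Complex.I * Real.pi * E‖ ≤ (1 / 4 : ℝ) ^ (n ^ (12 * κ + 4)) →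
      ‖φ xR - Complex.exp ρ‖ ≤ (1 / 4 : ℝ) ^ (n ^ (12 * κ + 4)) →
      ‖φ xA - Complex.exp E‖ ≤ (1 / 4 : ℝ) ^ (n ^ (12 * κ + 4)) →
      ‖φ xD - Complex.exp (E * ρ)‖ ≤ (1 / 4 : ℝ) ^ (n ^ (12 * κ + 4)) → False := by
  classical
  obtain ⟨c, hc, hZE⟩ := hZE
  set q0 : ℂ := Complex.I * Real.pi * E with hq0
  set r0 : ℂ := Complex.exp ρ with hr0
  set A0 : ℂ := Complex.exp E with hA0
  set D0 : ℂ := Complex.exp (E * ρ) with hD0
  set C2 : ℝ := 1 + Real.pi + |ρ| + ‖q0‖ + |E| with hC2def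
  set R1 : ℝ := 1 + (‖q0‖ + ‖r0‖ + ‖A0‖ + ‖D0‖) with hR1def
  have hpi : 0 < Real.pi := Real.pi_pos
  have hρ' : 0 ≤ |ρ| := abs_nonneg _
  have hE' : 0 ≤ |E| := abs_nonneg _
  have nq := norm_nonneg q0
  have nr := norm_nonneg r0
  have nA := norm_nonneg A0
  have nD := norm_nonneg D0
  have hC2 : 1 ≤ C2 := by rw [hC2def]; linarith
  have hR1 : 1 ≤ R1 := by rw [hR1def]; linarith
  obtain ⟨n1, hn1⟩ := growthQ κ c Dg hκ 1 C2 le_rfl hC2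
  obtain ⟨n2, hn2⟩ := growthQ κ c Dg hκ R1 C2 hR1 hC2
  have hlog2 : 0 < Real.log 2 := Real.log_pos (by norm_num)
  refine ⟨Real.log 2 / (104 * (Dg + 1)), by positivity, max 2 (max n1 n2), ?_⟩
  intro n hn F _ _ φ hDg xq xR xA xD d R0 hd hR0 hdR dq dr dA dD hσ hA hD hR hq hAn hrD hq1 hr1 hA1 hD1
  have hn2' : 2 ≤ n := (le_max_left _ _).trans hn
  have hnn1 : n1 ≤ n := ((le_max_left _ _).trans (le_max_right _ _)).trans hn
  have hnn2 : n2 ≤ n := ((le_max_right _ _).trans (le_max_right _ _)).trans hn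
  have hnpos : 0 < n := by omega
  obtain ⟨g1, -⟩ := hn1 n hnn1 (by omega)
  obtain ⟨-, g2⟩ := hn2 n hnn2 (by omega)
  obtain ⟨c1, c2, c3, c4, c5, c6, c7⟩ := numeric c κ n hκ hn2'
  set K := n ^ (11 * κ + 4) with hK
  set M := 2 * n ^ (7 * κ + 2) with hM
  set S := n ^ (4 * κ + 2) with hS
  set T := (2 * c + 1) * n ^ (12 * κ + 3) with hT
  set Q := n ^ (12 * κ + 4) with hQ
  have hKpos : 1 ≤ K := Nat.one_le_pow _ _ hnpos
  have hMpos : 1 ≤ M := by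
    have : 1 ≤ n ^ (7 * κ + 2) := Nat.one_le_pow _ _ hnpos
    omega
  have hSpos : 1 ≤ S := Nat.one_le_pow _ _ hnpos
  have hTpos : 1 ≤ T := Nat.succ_le_of_lt (Nat.mul_pos (by omega) (Nat.pow_pos hnpos))
  have hSM : S * M = 2 * K := by
    rw [hS, hM, hK]
    have : n ^ (11 * κ + 4) = n ^ (4 * κ + 2) * n ^ (7 * κ + 2) := by
      rw [← pow_add]; congr 1; ring
    rw [this]; ring
  obtain ⟨cc, hcc⟩ := minor1 φ K M T S xq xR xA xD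
    (hZE (φ xA) (φ xD) (φ xR) (φ xq) hA hD hR hq hAn hrD K M T S hKpos hMpos hTpos hSpos
      c1 c2 c3 c4 c5 c6 c7)
  apply hcc
  -- the perturbation
  have hε0 : (0 : ℝ) ≤ (1 / 4 : ℝ) ^ Q := by positivity
  have hε1 : (1 / 4 : ℝ) ^ Q ≤ 1 := pow_le_one₀ (by norm_num) (by norm_num)
  have near : ∀ x y : ℂ, ‖y‖ + 1 ≤ R1 → ‖x - y‖ ≤ (1 / 4 : ℝ) ^ Q →
      Near R1 ((1 / 4 : ℝ) ^ Q) x y := by
    intro x y hy hxy
    refine ⟨?_, by linarith, ?_⟩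
    · have : ‖x‖ ≤ ‖x - y‖ + ‖y‖ := by
        have := norm_add_le (x - y) y
        simpa using this
      linarith
    · nlinarith
  have pq := near _ _ (by rw [hR1def]; linarith) hq1
  have pr := near _ _ (by rw [hR1def]; linarith) hr1
  have pA := near _ _ (by rw [hR1def]; linarith) hA1
  have pD := near _ _ (by rw [hR1def]; linarith) hD1
  -- now the determinant vanishes
  have hcard : Fintype.card (J1 K M) = (K + 1) * ((K + 1) * ((M + 1) * (M + 1))) := by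
    simp [J1, Fintype.card_prod]
  have hcardN : (Fintype.card (J1 K M) : ℝ) = NN κ n := by
    rw [hcard]; rfl
  have hSM' : ((S : ℕ) : ℝ) * ((M : ℕ) : ℝ) = 2 * K := by exact_mod_cast hSM
  refine det_vanish_pert φ (L := Fin 3) (J := J1 K M)
    (fun j => ![0, (j.1 : ℕ), (j.2.1 : ℕ)])
    (fun j => ![(j.2.2.1 : ℂ) + j.2.2.2 * E, -(j.2.2.1 : ℂ), -(j.2.2.2 : ℂ)])
    (fun i => ![0, (cc i).1.1, (cc i).1.2.1])
    (fun i => ![((cc i).1.2.2.1 : ℂ) + (cc i).1.2.2.2.1 * (Real.pi * Complex.I)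
        + (cc i).1.2.2.2.2 * ρ, ((cc i).1.2.2.1 : ℂ), q0 * (cc i).1.2.2.2.1])
    (K + 4 * T) Q (fun _ => C2 * M) (fun _ => 4 * S * C2) (8 * C2 ^ 2 * (n : ℝ) ^ (12 * κ + 3))
    ?_ ?_ ?_ ?_ ?_ ?_ ?_ _ d (2 * K + 12 * (S * M)) hd
    ((((M : ℝ) + K) ^ (4 * T) * (4 * S * R0) ^ K) ^ 2 * R0 ^ (12 * (S * M)))
    ?_ ?_ ?_ ?_ ?_ ?_ ?_
  · intro _
    have : (1 : ℝ) ≤ M := by exact_mod_cast hMpos
    nlinarith
  · intro _
    have : (1 : ℝ) ≤ S := by exact_mod_cast hSpos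
    nlinarith
  · intro _
    have e1 : C2 * (M : ℝ) * (4 * S * C2) = 8 * C2 ^ 2 * K := by
      calc C2 * (M : ℝ) * (4 * S * C2) = 4 * C2 ^ 2 * (S * M) := by ring
        _ = _ := by rw [hSM']; ring
    have e2 : (K : ℝ) ≤ (n : ℝ) ^ (12 * κ + 3) := by
      rw [hK]; push_cast
      apply pow_le_pow_right₀ _ (by omega)
      exact_mod_cast hnpos
    show C2 * (M : ℝ) * (4 * S * C2) ≤ _
    rw [e1]
    gcongr
  · intro j l
    exact norm_a1_le E M j.2.2.1 j.2.2.2 (Nat.lt_succ_iff.mp j.2.2.1.2)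
      (Nat.lt_succ_iff.mp j.2.2.2.2) C2 (by rw [hC2def]; linarith) l
  · intro i l
    obtain ⟨hc1, hc2, hc3, hc4⟩ := (cc i).2
    exact norm_w1_le ρ q0 S _ _ _ hc2 hc3 hc4 C2 (by rw [hC2def]; linarith) l
  · intro j i l
    have hk1 : (j.1 : ℕ) ≤ K := Nat.lt_succ_iff.mp j.1.2
    have hk2 : (j.2.1 : ℕ) ≤ K := Nat.lt_succ_iff.mp j.2.1.2
    obtain ⟨hc1, hc2, hc3, hc4⟩ := (cc i).2
    fin_cases l <;> simp <;> omega
  · positivity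
  · -- B ≥ 1
    have hM1 : (1 : ℝ) ≤ M := by exact_mod_cast hMpos
    have hS1 : (1 : ℝ) ≤ S := by exact_mod_cast hSpos
    have hK1 : (1 : ℝ) ≤ K := by exact_mod_cast hKpos
    have b1 : (1 : ℝ) ≤ ((M : ℝ) + K) ^ (4 * T) := one_le_pow₀ (by linarith)
    have b2 : (1 : ℝ) ≤ (4 * S * R0) ^ K := one_le_pow₀ (by nlinarith)
    have b3 : (1 : ℝ) ≤ R0 ^ (12 * (S * M)) := one_le_pow₀ hR0
    have b4 : (1 : ℝ) ≤ (((M : ℝ) + K) ^ (4 * T) * (4 * S * R0) ^ K) ^ 2 :=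
      one_le_pow₀ (one_le_mul_of_one_le_of_one_le b1 b2)
    exact one_le_mul_of_one_le_of_one_le b4 b3
  · intro j i
    have hk1 : (j.1 : ℕ) ≤ K := Nat.lt_succ_iff.mp j.1.2
    have hk2 : (j.2.1 : ℕ) ≤ K := Nat.lt_succ_iff.mp j.2.1.2
    have hm1 : (j.2.2.1 : ℕ) ≤ M := Nat.lt_succ_iff.mp j.2.2.1.2
    have hm2 : (j.2.2.2 : ℕ) ≤ M := Nat.lt_succ_iff.mp j.2.2.2.2
    obtain ⟨hc1, hc2, hc3, hc4⟩ := (cc i).2
    exact entry1_int dq dr dA dD K M S hk1 hk2 hm1 hm2 hc2 hc4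
  · intro σ j i
    have hk1 : (j.1 : ℕ) ≤ K := Nat.lt_succ_iff.mp j.1.2
    have hk2 : (j.2.1 : ℕ) ≤ K := Nat.lt_succ_iff.mp j.2.1.2
    have hm1 : (j.2.2.1 : ℕ) ≤ M := Nat.lt_succ_iff.mp j.2.2.1.2
    have hm2 : (j.2.2.2 : ℕ) ≤ M := Nat.lt_succ_iff.mp j.2.2.2.2
    obtain ⟨hc1, hc2, hc3, hc4⟩ := (cc i).2
    obtain ⟨g1, g2, g3, g4⟩ := hσ σ
    have e1 := entry1_map (σ : F →+* ℂ) xq xR xA xD j.1 j.2.1 j.2.2.1 j.2.2.2 (cc i).1.1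
      (cc i).1.2.1 (cc i).1.2.2.1 (cc i).1.2.2.2.1 (cc i).1.2.2.2.2
    have e2 := entry1_norm hR0 g1 g2 g3 g4 K M S T hKpos hSpos hk1 hk2 hm1 hm2
      (t1 := (cc i).1.1) (t2 := (cc i).1.2.1) (by omega) (by omega) hc2 hc3 hc4
    exact (le_of_eq (congrArg norm e1)).trans e2
  · intro j i
    have hk1 : (j.1 : ℕ) ≤ K := Nat.lt_succ_iff.mp j.1.2
    have hk2 : (j.2.1 : ℕ) ≤ K := Nat.lt_succ_iff.mp j.2.1.2
    have hm1 : (j.2.2.1 : ℕ) ≤ M := Nat.lt_succ_iff.mp j.2.2.1.2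
    have hm2 : (j.2.2.2 : ℕ) ≤ M := Nat.lt_succ_iff.mp j.2.2.2.2
    obtain ⟨hc1, hc2, hc3, hc4⟩ := (cc i).2
    have e1 := entry1_map (φ : F →+* ℂ) xq xR xA xD j.1 j.2.1 j.2.2.1 j.2.2.2 (cc i).1.1
      (cc i).1.2.1 (cc i).1.2.2.1 (cc i).1.2.2.2.1 (cc i).1.2.2.2.2
    have e2 := entry1_exp E ρ q0 r0 A0 D0 rfl rfl rfl rfl j.1 j.2.1 j.2.2.1 j.2.2.2
      (cc i).1.1 (cc i).1.2.1 (cc i).1.2.2.1 (cc i).1.2.2.2.1 (cc i).1.2.2.2.2
    have e3 := entry1_near hR1 hε0 pq pr pA pD K M S T hKpos hSpos hk1 hk2 hm1 hm2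
      (t1 := (cc i).1.1) (t2 := (cc i).1.2.1) (by omega) (by omega) hc2 hc3 hc4
    have e4 : (∏ l : Fin 3, (LamC ((![(j.2.2.1 : ℂ) + j.2.2.2 * E, -(j.2.2.1 : ℂ),
          -(j.2.2.2 : ℂ)] : Fin 3 → ℂ) l)
        ((![0, (j.1 : ℕ), (j.2.1 : ℕ)] : Fin 3 → ℕ) l)
        ((![0, (cc i).1.1, (cc i).1.2.1] : Fin 3 → ℕ) l)
        ((![((cc i).1.2.2.1 : ℂ) + (cc i).1.2.2.2.1 * (Real.pi * Complex.I)
          + (cc i).1.2.2.2.2 * ρ, ((cc i).1.2.2.1 : ℂ), q0 * (cc i).1.2.2.2.1] : Fin 3 → ℂ) l)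
        * Complex.exp ((![(j.2.2.1 : ℂ) + j.2.2.2 * E, -(j.2.2.1 : ℂ),
          -(j.2.2.2 : ℂ)] : Fin 3 → ℂ) l *
          (![((cc i).1.2.2.1 : ℂ) + (cc i).1.2.2.2.1 * (Real.pi * Complex.I)
          + (cc i).1.2.2.2.2 * ρ, ((cc i).1.2.2.1 : ℂ), q0 * (cc i).1.2.2.2.1] :
            Fin 3 → ℂ) l))) = entry1 q0 r0 A0 D0 j.1 j.2.1 j.2.2.1 j.2.2.2
      (cc i).1.1 (cc i).1.2.1 (cc i).1.2.2.1 (cc i).1.2.2.2.1 (cc i).1.2.2.2.2 := by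
      rw [e2]
    refine le_trans (le_of_eq (congrArg norm (congrArg₂ (· - ·) e1 e4))) (e3.trans ?_)
    have e5 : (((M : ℝ) + K) ^ (4 * T) * (4 * S * R1) ^ K) ^ 2 * R1 ^ (12 * (S * M)) *
        ((K + 12 * (S * M)) * (1 / 4 : ℝ) ^ Q) =
        (BB κ c n R1 * (R1 ^ (12 * (S * M)) * (((K : ℕ) : ℝ) + 12 * (((S : ℕ) : ℝ) * ((M : ℕ) : ℝ)))))
          * (1 / 4 : ℝ) ^ Q := by
      unfold BB
      ring
    rw [e5]
    calc (BB κ c n R1 * (R1 ^ (12 * (S * M)) *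
          (((K : ℕ) : ℝ) + 12 * (((S : ℕ) : ℝ) * ((M : ℕ) : ℝ))))) * (1 / 4 : ℝ) ^ Q
        ≤ 2 ^ Q * (1 / 4 : ℝ) ^ Q := mul_le_mul_of_nonneg_right g2 hε0
      _ = (1 / 2 : ℝ) ^ Q := by rw [← mul_pow]; norm_num
  · rw [hcard]; positivity
  · rw [hcard, Fintype.card_fin]
    have e1 : Q ^ 3 = n ^ (36 * κ + 12) := by
      rw [hQ, ← pow_mul]; congr 1; ring
    have e2 : K * (K * (M * M)) = 4 * n ^ (36 * κ + 12) := by
      have : n ^ (36 * κ + 12) = (n ^ (11 * κ + 4)) ^ 2 * (n ^ (7 * κ + 2)) ^ 2 := by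
        rw [← pow_mul, ← pow_mul, ← pow_add]; congr 1; ring
      rw [this, hK, hM]; ring
    calc 2 * Q ^ 3 ≤ 4 * n ^ (36 * κ + 12) := by rw [e1]; omega
      _ = K * (K * (M * M)) := e2.symm
      _ ≤ (K + 1) * ((K + 1) * ((M + 1) * (M + 1))) := by gcongr <;> omega
  · -- the arithmetic estimate
    rw [hcardN]
    have hCC : ((Fintype.card (Fin 3) : ℝ) + 1) * (2 * E1 (K + 4 * T)
        (8 * C2 ^ 2 * (n : ℝ) ^ (12 * κ + 3))) ^ (Fintype.card (Fin 3)) = CC κ c n C2 := by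
      rw [Fintype.card_fin]
      unfold CC
      push_cast
      rfl
    rw [hCC]
    have hBB : (((M : ℝ) + K) ^ (4 * T) * (4 * S * R0) ^ K) ^ 2 * R0 ^ (12 * (S * M)) =
        BB κ c n 1 * R0 ^ (2 * K + 12 * (S * M)) := by
      unfold BB
      rw [pow_add R0, mul_comm 2 K, pow_mul R0, mul_one, mul_pow (4 * (S : ℝ)) R0]
      ring
    rw [hBB]
    set D := Module.finrank ℚ F with hDdef
    set h := 2 * K + 12 * (S * M) with hh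
    have hN1 : 1 ≤ NN κ n := by
      rw [← hcardN, hcard]
      have : 1 ≤ (K + 1) * ((K + 1) * ((M + 1) * (M + 1))) := Nat.succ_le_of_lt (by positivity)
      exact_mod_cast this
    have hB1 : 1 ≤ BB κ c n 1 := by
      unfold BB
      have hM1 : (1 : ℝ) ≤ M := by exact_mod_cast hMpos
      have hS1 : (1 : ℝ) ≤ S := by exact_mod_cast hSpos
      have hK1 : (1 : ℝ) ≤ K := by exact_mod_cast hKpos
      have b1 : (1 : ℝ) ≤ ((M : ℝ) + K) ^ (4 * T) := one_le_pow₀ (by linarith)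
      have b2 : (1 : ℝ) ≤ (4 * S * 1) ^ K := one_le_pow₀ (by nlinarith)
      exact one_le_pow₀ (one_le_mul_of_one_le_of_one_le b1 b2)
    have hC0 : 0 ≤ CC κ c n C2 := by
      rw [← hCC]
      have : 0 ≤ E1 (K + 4 * T) (8 * C2 ^ 2 * (n : ℝ) ^ (12 * κ + 3)) := by
        have := E1_one_le (K + 4 * T) (8 * C2 ^ 2 * (n : ℝ) ^ (12 * κ + 3)) (by positivity)
        linarith
      positivity
    have hd1 : (1 : ℝ) ≤ (d : ℝ) := by exact_mod_cast hd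
    have hdR1 : 1 ≤ (d : ℝ) * R0 := one_le_mul_of_one_le_of_one_le hd1 hR0
    have k1 : 2 * NN κ n * CC κ c n C2 * ((d : ℝ) ^ h) ^ D * (NN κ n * (BB κ c n 1 * R0 ^ h)) ^ D ≤
        (2 * NN κ n * CC κ c n C2 * (NN κ n * BB κ c n 1) ^ Dg) * (((d : ℝ) * R0) ^ h) ^ Dg := by
      have e1 : 2 * NN κ n * CC κ c n C2 * ((d : ℝ) ^ h) ^ D * (NN κ n * (BB κ c n 1 * R0 ^ h)) ^ D =
          (2 * NN κ n * CC κ c n C2) * (((NN κ n * BB κ c n 1) ^ D) * (((d : ℝ) * R0) ^ h) ^ D) := by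
        rw [mul_pow (d : ℝ) R0 h, mul_pow ((d : ℝ) ^ h) (R0 ^ h) D, ← mul_assoc (NN κ n),
          mul_pow (NN κ n * BB κ c n 1) (R0 ^ h) D]
        ring
      rw [e1]
      have e2 : (NN κ n * BB κ c n 1) ^ D ≤ (NN κ n * BB κ c n 1) ^ Dg :=
        pow_le_pow_right₀ (one_le_mul_of_one_le_of_one_le hN1 hB1) hDg
      have e3 : (((d : ℝ) * R0) ^ h) ^ D ≤ (((d : ℝ) * R0) ^ h) ^ Dg :=
        pow_le_pow_right₀ (one_le_pow₀ hdR1) hDg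
      have e4 : (0 : ℝ) ≤ (((d : ℝ) * R0) ^ h) ^ D := by positivity
      have e5 : (0 : ℝ) ≤ (NN κ n * BB κ c n 1) ^ Dg := by positivity
      have e6 : (0 : ℝ) ≤ 2 * NN κ n * CC κ c n C2 := by positivity
      calc (2 * NN κ n * CC κ c n C2) * (((NN κ n * BB κ c n 1) ^ D) * (((d : ℝ) * R0) ^ h) ^ D)
          ≤ (2 * NN κ n * CC κ c n C2) * (((NN κ n * BB κ c n 1) ^ Dg) * (((d : ℝ) * R0) ^ h) ^ Dg) :=
            mul_le_mul_of_nonneg_left (mul_le_mul e2 e3 e4 e5) e6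
        _ = _ := by ring
    have k0 : 0 ≤ 2 * NN κ n * CC κ c n C2 * ((d : ℝ) ^ h) ^ D *
        (NN κ n * (BB κ c n 1 * R0 ^ h)) ^ D := by positivity
    -- the factor with the heights
    have k2 : (((((d : ℝ) * R0) ^ h) ^ Dg) ^ 2) ^ 2 ≤ 2 ^ Q := by
      have e1 : (((((d : ℝ) * R0) ^ h) ^ Dg) ^ 2) ^ 2 = ((d : ℝ) * R0) ^ (h * Dg * 4) := by
        rw [← pow_mul, ← pow_mul, ← pow_mul, mul_assoc]
      have e2 : (h : ℝ) = 26 * (n : ℝ) ^ (11 * κ + 4) := by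
        have : h = 26 * n ^ (11 * κ + 4) := by
          rw [hh, hSM, hK]; ring
        rw [this]; push_cast; ring
      have e3 : (2 : ℝ) ^ Q = Real.exp (Real.log 2 * (n : ℝ) ^ (12 * κ + 4)) := by
        rw [Real.exp_mul, Real.exp_log (by norm_num)]
        have : ((n : ℝ) ^ (12 * κ + 4)) = ((n ^ (12 * κ + 4) : ℕ) : ℝ) := by push_cast; rfl
        rw [this, Real.rpow_natCast]
      rw [e1, e3]
      calc ((d : ℝ) * R0) ^ (h * Dg * 4)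
          ≤ (Real.exp (Real.log 2 / (104 * (Dg + 1)) * (n : ℝ) ^ κ)) ^ (h * Dg * 4) :=
            pow_le_pow_left₀ (by positivity) hdR _
        _ = Real.exp (((h * Dg * 4 : ℕ) : ℝ) * (Real.log 2 / (104 * (Dg + 1)) * (n : ℝ) ^ κ)) := by
            rw [← Real.exp_nat_mul]
        _ ≤ _ := by
          apply Real.exp_le_exp.mpr
          push_cast
          rw [e2]
          have e4 : (n : ℝ) ^ (12 * κ + 4) = (n : ℝ) ^ (11 * κ + 4) * (n : ℝ) ^ κ := by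
            rw [← pow_add]; congr 1; ring
          rw [e4]
          have e5 : 26 * (n : ℝ) ^ (11 * κ + 4) * Dg * 4 *
              (Real.log 2 / (104 * (Dg + 1)) * (n : ℝ) ^ κ) =
              (Dg / (Dg + 1)) * (Real.log 2 * ((n : ℝ) ^ (11 * κ + 4) * (n : ℝ) ^ κ)) := by
            field_simp
            ring
          rw [e5]
          have e6 : (Dg : ℝ) / (Dg + 1) ≤ 1 := by
            rw [div_le_one (by positivity)]; linarith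
          have e7 : 0 ≤ Real.log 2 * ((n : ℝ) ^ (11 * κ + 4) * (n : ℝ) ^ κ) := by positivity
          nlinarith
    set f1 : ℝ := 2 * NN κ n * CC κ c n C2 * (NN κ n * BB κ c n 1) ^ Dg with hf1
    set g : ℝ := (((d : ℝ) * R0) ^ h) ^ Dg with hg
    have hf10 : 0 ≤ f1 := by rw [hf1]; positivity
    have hg0 : 0 < g := by rw [hg]; positivity
    have k3 : ((f1 * g) ^ 2) ^ 2 < ((2 : ℝ) ^ Q) ^ 2 := by
      have e1 : ((f1 * g) ^ 2) ^ 2 = (f1 ^ 2) ^ 2 * (g ^ 2) ^ 2 := by ring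
      have e2 : 0 < (g ^ 2) ^ 2 := by positivity
      have e3 : (0 : ℝ) < 2 ^ Q := by positivity
      calc ((f1 * g) ^ 2) ^ 2 = (f1 ^ 2) ^ 2 * (g ^ 2) ^ 2 := e1
        _ < 2 ^ Q * (g ^ 2) ^ 2 := mul_lt_mul_of_pos_right g1 e2
        _ ≤ 2 ^ Q * 2 ^ Q := mul_le_mul_of_nonneg_left k2 e3.le
        _ = _ := by ring
    have k4 : (f1 * g) ^ 2 < (2 : ℝ) ^ Q := lt_of_pow_lt_pow_left₀ 2 (by positivity) k3
    exact lt_of_le_of_lt (pow_le_pow_left₀ k0 k1 2) k4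

end Pool.Agent.Y928.QN
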