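import Mathlib

/-!
A crude irrationality measure of `e`.
-/

set_option autoImplicit false

namespace Pool.Agent.Y928.QN

open Finset

theorem fact_sum_int (N : ℕ) : ∃ z : ℤ, (N.factorial : ℝ) * ∑ m ∈ range (N + 1),
    (1 : ℝ) ^ m / (m.factorial : ℝ) = z := by
  refine ⟨∑ m ∈ range (N + 1), ((N.factorial / m.factorial : ℕ) : ℤ), ?_⟩
  rw [Finset.mul_sum, Int.cast_sum]
  apply Finset.sum_congr rfl
  intro m hm
  rw [Int.cast_natCast]
  have hm' : m ≤ N := by simpa [Nat.lt_succ_iff] using hm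
  have h1 : m.factorial ∣ N.factorial := Nat.factorial_dvd_factorial hm'
  rw [Nat.cast_div h1 (by exact_mod_cast Nat.factorial_ne_zero m), one_pow]
  ring

/-- `|e - u / v| ≥ 1 / (v + 2)!` -/
theorem e_irr (u : ℤ) (v : ℕ) (hv : 1 ≤ v) :
    1 / ((v + 2).factorial : ℝ) ≤ |Real.exp 1 - u / v| := by
  set N := v + 1 with hN
  have hN2 : 2 ≤ N := by omega
  obtain ⟨z, hz⟩ := fact_sum_int N
  have hNf : (0 : ℝ) < (N.factorial : ℝ) := by exact_mod_cast Nat.factorial_pos N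
  have hN1 : (0 : ℝ) < (N : ℝ) + 1 := by positivity
  have hN1f : ((N + 1).factorial : ℝ) = ((N : ℝ) + 1) * N.factorial := by
    rw [Nat.factorial_succ]; push_cast; ring
  -- upper bound
  have hup : Real.exp 1 ≤ ∑ m ∈ range (N + 1), (1 : ℝ) ^ m / (m.factorial : ℝ) +
      (1 : ℝ) ^ (N + 1) * (((N + 1 : ℕ) : ℝ) + 1) / (((N + 1).factorial : ℝ) * ((N + 1 : ℕ) : ℝ)) :=
    Real.exp_bound' (by norm_num) le_rfl (Nat.succ_pos N)
  have hlo : ∑ m ∈ range (N + 2), (1 : ℝ) ^ m / (m.factorial : ℝ) ≤ Real.exp 1 :=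
    Real.sum_le_exp_of_nonneg (by norm_num) (N + 2)
  rw [Finset.sum_range_succ] at hlo
  have hup' : (N.factorial : ℝ) * Real.exp 1 - z ≤ ((N : ℝ) + 2) / ((N : ℝ) + 1) ^ 2 := by
    have h1 := mul_le_mul_of_nonneg_left hup hNf.le
    rw [mul_add, hz, hN1f] at h1
    have e1 : (N.factorial : ℝ) * ((1 : ℝ) ^ (N + 1) * (((N + 1 : ℕ) : ℝ) + 1) /
        (((N : ℝ) + 1) * N.factorial * ((N + 1 : ℕ) : ℝ))) = ((N : ℝ) + 2) / ((N : ℝ) + 1) ^ 2 := by
      push_cast
      rw [one_pow]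
      field_simp
      ring
    rw [e1] at h1
    linarith
  have hlo' : 1 / ((N : ℝ) + 1) ≤ (N.factorial : ℝ) * Real.exp 1 - z := by
    have h1 := mul_le_mul_of_nonneg_left hlo hNf.le
    rw [mul_add, hz, hN1f] at h1
    have e1 : (N.factorial : ℝ) * ((1 : ℝ) ^ (N + 1) / (((N : ℝ) + 1) * N.factorial)) =
        1 / ((N : ℝ) + 1) := by
      rw [one_pow]
      field_simp
    rw [e1] at h1
    linarith
  -- the integer
  have hvpos : (0 : ℝ) < v := by exact_mod_cast hv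
  have hdiv : v ∣ N.factorial := Nat.dvd_factorial hv (by omega)
  obtain ⟨w, hw⟩ := hdiv
  have e1 : (N.factorial : ℝ) * (Real.exp 1 - u / v) = (N.factorial : ℝ) * Real.exp 1 - (u * w : ℤ) := by
    have : (N.factorial : ℝ) = v * w := by exact_mod_cast hw
    rw [this]
    push_cast
    field_simp
  set t : ℝ := (N.factorial : ℝ) * Real.exp 1 - z with ht
  have key : 1 / ((N : ℝ) + 1) ≤ |(N.factorial : ℝ) * Real.exp 1 - (u * w : ℤ)| := by
    have e2 : (N.factorial : ℝ) * Real.exp 1 - (u * w : ℤ) = t + ((z - u * w : ℤ) : ℝ) := by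
      rw [ht]; push_cast; ring
    rw [e2]
    have hN2' : (2 : ℝ) ≤ N := by exact_mod_cast hN2
    have hfrac : ((N : ℝ) + 2) / ((N : ℝ) + 1) ^ 2 ≤ 1 - 1 / ((N : ℝ) + 1) := by
      rw [div_le_iff₀ (by positivity)]
      have : (1 - 1 / ((N : ℝ) + 1)) * ((N : ℝ) + 1) ^ 2 = ((N : ℝ) + 1) ^ 2 - ((N : ℝ) + 1) := by
        field_simp
      rw [this]
      nlinarith
    have hpos : 0 < 1 / ((N : ℝ) + 1) := by positivity
    rcases le_or_gt 0 (z - u * w) with h | h
    · have h' : (0 : ℝ) ≤ ((z - u * w : ℤ) : ℝ) := by exact_mod_cast h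
      rw [abs_of_nonneg (by linarith)]
      linarith
    · have h' : ((z - u * w : ℤ) : ℝ) ≤ -1 := by
        have : z - u * w ≤ -1 := by omega
        exact_mod_cast this
      rw [abs_of_nonpos (by linarith)]
      linarith
  rw [← e1, abs_mul, abs_of_pos hNf] at key
  have hfin : 1 / ((v + 2).factorial : ℝ) = 1 / ((N : ℝ) + 1) / N.factorial := by
    have : v + 2 = N + 1 := by omega
    rw [this, hN1f]
    field_simp
  rw [hfin, div_le_iff₀ hNf]
  linarith

end Pool.Agent.Y928.QN
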