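import Mathlib
import Pool.Agent.H301R2.TR.LamR

/-!
Large roots of algebraic numbers of bounded degree.
-/

set_option autoImplicit false

namespace Pool.Agent.Y928.QN

open Polynomial Pool.Agent.H301R2.TR

/-- Mahler measures of integer polynomials of bounded degree are not close to `1` -/
theorem mahler_gap (n : ℕ) : ∃ c : ℝ, 1 < c ∧ ∀ p : ℤ[X], p ≠ 0 → p.natDegree ≤ n →
    (p.map (Int.castRingHom ℂ)).mahlerMeasure ≠ 1 → c ≤ (p.map (Int.castRingHom ℂ)).mahlerMeasure := by
  classical
  have hfin := Polynomial.finite_mahlerMeasure_le n 2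
  set S := {p : ℤ[X] | p.natDegree ≤ n ∧ (p.map (Int.castRingHom ℂ)).mahlerMeasure ≤ (2 : NNReal)}
    with hS
  set T := (fun p : ℤ[X] => (p.map (Int.castRingHom ℂ)).mahlerMeasure) '' S ∩ Set.Ioi 1 with hT
  have hTfin : T.Finite := (hfin.image _).subset Set.inter_subset_left
  have key : ∀ c : ℝ, c ≤ 2 → (∀ t ∈ T, c ≤ t) → ∀ p : ℤ[X], p ≠ 0 → p.natDegree ≤ n →
      (p.map (Int.castRingHom ℂ)).mahlerMeasure ≠ 1 →
      c ≤ (p.map (Int.castRingHom ℂ)).mahlerMeasure := by
    intro c hc2 hc p hp hn h1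
    by_cases h2 : (p.map (Int.castRingHom ℂ)).mahlerMeasure ≤ 2
    · apply hc
      refine ⟨⟨p, ⟨hn, ?_⟩, rfl⟩, ?_⟩
      · simpa using h2
      · exact lt_of_le_of_ne (Polynomial.one_le_mahlerMeasure_of_ne_zero hp) (Ne.symm h1)
    · push Not at h2
      linarith
  rcases T.eq_empty_or_nonempty with hT0 | hT0
  · refine ⟨2, by norm_num, key 2 le_rfl ?_⟩
    intro t ht
    rw [hT0] at ht
    exact absurd ht (Set.notMem_empty t)
  · obtain ⟨t0, ht0, hmin⟩ := Set.exists_min_image T id hTfin hT0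
    refine ⟨min 2 t0, lt_min (by norm_num) ht0.2, key _ (min_le_left _ _) ?_⟩
    intro t ht
    exact (min_le_right _ _).trans (hmin t ht)

/-- algebraic integers of bounded degree which are not roots of unity have a conjugate which is not
close to the unit disc -/
theorem house_gap (n : ℕ) : ∃ s : ℝ, 1 < s ∧ ∀ (F : Type) [Field F] [NumberField F],
    Module.finrank ℚ F ≤ n → ∀ x : F, IsIntegral ℤ x → x ≠ 0 → (∀ m : ℕ, 0 < m → x ^ m ≠ 1) →
    ∃ σ : F →ₐ[ℚ] ℂ, s < ‖σ x‖ := by
  classical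
  obtain ⟨c, hc, hgap⟩ := mahler_gap n
  have hlc : 0 < Real.log c := Real.log_pos hc
  set s : ℝ := Real.exp (Real.log c / (n + 1)) with hs
  have hs1 : 1 < s := by
    rw [hs]
    exact Real.one_lt_exp_iff.mpr (by positivity)
  have hsn : s ^ n < c := by
    rw [hs, ← Real.exp_nat_mul]
    calc Real.exp (n * (Real.log c / (n + 1))) < Real.exp (Real.log c) := by
          apply Real.exp_lt_exp.mpr
          rw [mul_div_assoc', div_lt_iff₀ (by positivity)]
          nlinarith
      _ = c := Real.exp_log (by linarith)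
  refine ⟨s, hs1, fun F _ _ hF x hx hx0 htor => ?_⟩
  by_contra hcon
  push Not at hcon
  set p : ℤ[X] := minpoly ℤ x with hp
  have hmonic : p.Monic := minpoly.monic hx
  have hpne : p ≠ 0 := hmonic.ne_zero
  have hpQ : p.map (algebraMap ℤ ℚ) = minpoly ℚ x := by
    rw [hp]
    exact (minpoly.isIntegrallyClosed_eq_field_fractions' ℚ hx).symm
  have hdeg : p.natDegree ≤ n := by
    have h1 : p.natDegree = (minpoly ℚ x).natDegree := by
      rw [← hpQ, Polynomial.natDegree_map_eq_of_injective (algebraMap ℤ ℚ).injective_int]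
    rw [h1]
    exact (minpoly.natDegree_le x).trans hF
  have hroots : ∀ z ∈ (p.map (Int.castRingHom ℂ)).roots, ∃ σ : F →ₐ[ℚ] ℂ, σ x = z := by
    intro z hz
    have h1 : z ∈ (minpoly ℚ x).aroots ℂ := by
      have e : (algebraMap ℚ ℂ).comp (algebraMap ℤ ℚ) = Int.castRingHom ℂ := RingHom.ext_int _ _
      rw [Polynomial.aroots_def, ← hpQ, Polynomial.map_map, e]
      exact hz
    have h2 : z ∈ (minpoly ℚ x).rootSet ℂ := by
      rw [Polynomial.rootSet_def]
      simpa using h1
    rw [← Algebra.IsAlgebraic.range_eval_eq_rootSet_minpoly ℂ x] at h2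
    obtain ⟨σ, hσ⟩ := h2
    exact ⟨σ, hσ⟩
  have hM1 : (p.map (Int.castRingHom ℂ)).mahlerMeasure ≠ 1 := by
    intro hM
    obtain ⟨φ⟩ : Nonempty (F →ₐ[ℚ] ℂ) := ⟨(IsAlgClosed.lift (R := ℚ) : F →ₐ[ℚ] ℂ)⟩
    have h1 : φ x ≠ 0 := fun h => hx0 ((map_eq_zero φ).mp h)
    have h2 : φ x ∈ p.aroots ℂ := by
      rw [Polynomial.mem_aroots]
      refine ⟨hpne, ?_⟩
      have h3 : (Polynomial.aeval x) p = 0 := minpoly.aeval ℤ x
      have h4 : Polynomial.aeval (φ x) p = φ (Polynomial.aeval x p) := by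
        have := Polynomial.aeval_algHom_apply (φ.restrictScalars ℤ) x p
        simpa using this
      rw [h4, h3, map_zero]
    obtain ⟨m, hm, hm1⟩ := Polynomial.pow_eq_one_of_mahlerMeasure_eq_one hM h1 h2
    apply htor m hm
    rw [← map_pow] at hm1
    have : φ (x ^ m) = φ 1 := by rw [hm1, map_one]
    exact (φ : F →+* ℂ).injective this
  have hge := hgap p hpne hdeg hM1
  have hle : (p.map (Int.castRingHom ℂ)).mahlerMeasure ≤ s ^ n := by
    rw [Polynomial.mahlerMeasure_eq_leadingCoeff_mul_prod_roots]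
    have h1 : (p.map (Int.castRingHom ℂ)).leadingCoeff = 1 := (hmonic.map _).leadingCoeff
    rw [h1, norm_one, one_mul]
    have h2 : ((p.map (Int.castRingHom ℂ)).roots.map (fun a ↦ max 1 ‖a‖)).prod ≤
        s ^ (Multiset.card ((p.map (Int.castRingHom ℂ)).roots.map (fun a ↦ max 1 ‖a‖))) := by
      have gen : ∀ M : Multiset ℂ, (∀ a ∈ M, ‖a‖ ≤ s) →
          (M.map (fun a ↦ max 1 ‖a‖)).prod ≤ s ^ (Multiset.card (M.map (fun a ↦ max 1 ‖a‖))) := by
        intro M
        induction M using Multiset.induction_on with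
        | empty => intro _; simp
        | cons a M ih =>
          intro h
          rw [Multiset.map_cons, Multiset.prod_cons, Multiset.card_cons, pow_succ, mul_comm]
          have g1 := ih (fun b hb => h b (Multiset.mem_cons_of_mem hb))
          have g2 : max 1 ‖a‖ ≤ s := max_le hs1.le (h a (Multiset.mem_cons_self a M))
          exact mul_le_mul g1 g2 (by positivity) (by positivity)
      apply gen
      intro a ha
      obtain ⟨σ, rfl⟩ := hroots a ha
      exact hcon σ
    refine h2.trans ?_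
    apply pow_le_pow_right₀ hs1.le
    rw [Multiset.card_map]
    refine (Polynomial.card_roots' _).trans ?_
    exact (Polynomial.natDegree_map_le).trans hdeg
  linarith

open IsDedekindDomain NumberField in
/-- if `x` is a root of unity times a `v`-th power of a number which is not an algebraic integer,
the denominator of `x` is large -/
theorem den_gap {F : Type*} [Field F] [NumberField F] (x ζ η : F) (v d k : ℕ) (hd : 0 < d)
    (hx : IntD d 1 x) (hk : 0 < k) (hζ : ζ ^ k = 1) (hxe : x = ζ * η ^ v) (hη : ¬ IsIntegral ℤ η) :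
    2 ^ v ≤ d ^ (Module.finrank ℚ F) := by
  classical
  obtain ⟨P, hP⟩ : ∃ P : HeightOneSpectrum (𝓞 F), 1 < P.valuation F η := by
    by_contra hcon
    push Not at hcon
    obtain ⟨y, hy⟩ := HeightOneSpectrum.mem_integers_of_valuation_le_one F η hcon
    apply hη
    rw [← hy]
    exact RingOfIntegers.isIntegral_coe y
  unfold IntD at hx
  rw [pow_one] at hx
  set y : 𝓞 F := ⟨(d : F) * x, hx⟩ with hy
  have hyF : (algebraMap (𝓞 F) F y) = (d : F) * x := rfl
  have h1 : P.valuation F ((d : F) * x) ≤ 1 := by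
    rw [← hyF]; exact P.valuation_le_one y
  have hζ1 : P.valuation F ζ = 1 := by
    have h2 : (P.valuation F ζ) ^ k = 1 := by rw [← map_pow, hζ, map_one]
    have h3 : P.valuation F ζ ≠ 0 := by
      intro h
      rw [h] at h2
      rw [zero_pow hk.ne'] at h2
      exact zero_ne_one h2
    have h4 := congrArg WithZero.log h2
    rw [WithZero.log_pow, WithZero.log_one, smul_eq_zero] at h4
    have h5 := h4.resolve_left hk.ne'
    rw [← WithZero.exp_log h3, h5, WithZero.exp_zero]
  have hη0 : P.valuation F η ≠ 0 := (zero_lt_one.trans hP).ne'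
  have hexp : WithZero.exp (1 : ℤ) ≤ P.valuation F η := by
    rw [← WithZero.exp_log hη0] at hP ⊢
    rw [WithZero.exp_le_exp]
    have : (0 : ℤ) < WithZero.log (P.valuation F η) := by
      rw [← WithZero.exp_zero, WithZero.exp_lt_exp] at hP
      exact hP
    omega
  have hdv : P.valuation F (d : F) ≤ WithZero.exp (-(v : ℤ)) := by
    rw [hxe, map_mul, map_mul, map_pow, hζ1, one_mul] at h1
    have h2 : WithZero.exp (v : ℤ) ≤ (P.valuation F η) ^ v := by
      have h3 : WithZero.exp (v : ℤ) = (WithZero.exp (1 : ℤ)) ^ v := by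
        rw [← WithZero.exp_nsmul]; simp
      rw [h3]
      exact pow_le_pow_left' hexp v
    have h4 : P.valuation F (d : F) * WithZero.exp (v : ℤ) ≤ 1 :=
      (mul_le_mul_right h2 _).trans h1
    rw [WithZero.exp_neg]
    exact (le_mul_inv_iff₀ (zero_lt_iff.mpr (WithZero.exp_ne_zero))).mpr (by simpa using h4) |>.trans
      (by simp)
  have hdO : P.intValuation ((d : ℕ) : 𝓞 F) ≤ WithZero.exp (-(v : ℤ)) := by
    rw [← HeightOneSpectrum.valuation_of_algebraMap (K := F)]
    simpa using hdv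
  rw [HeightOneSpectrum.intValuation_le_pow_iff_dvd] at hdO
  have h5 : Ideal.absNorm (P.asIdeal ^ v) ∣ Ideal.absNorm (Ideal.span {((d : ℕ) : 𝓞 F)}) :=
    Ideal.absNorm_dvd_absNorm_of_le (Ideal.dvd_iff_le.mp hdO)
  rw [map_pow] at h5
  have h6 : Ideal.absNorm (Ideal.span {((d : ℕ) : 𝓞 F)}) = d ^ (Module.finrank ℚ F) := by
    rw [Ideal.absNorm_span_singleton]
    have : Algebra.norm ℤ ((d : ℕ) : 𝓞 F) = (d : ℤ) ^ (Module.finrank ℤ (𝓞 F)) := by
      have := Algebra.norm_algebraMap (R := ℤ) (S := 𝓞 F) (d : ℤ)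
      simpa using this
    rw [this, Int.natAbs_pow, Int.natAbs_natCast, RingOfIntegers.rank]
  rw [h6] at h5
  have h7 := Nat.le_of_dvd (Nat.pow_pos hd) h5
  have h8 : 2 ≤ Ideal.absNorm P.asIdeal := by
    have h9 : Ideal.absNorm P.asIdeal ≠ 1 := by
      intro h
      exact P.isPrime.ne_top (Ideal.absNorm_eq_one_iff.mp h)
    have h10 : Ideal.absNorm P.asIdeal ≠ 0 := by
      intro h
      exact P.ne_bot (Ideal.absNorm_eq_zero_iff.mp h)
    omega
  exact (Nat.pow_le_pow_left h8 v).trans h7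

end Pool.Agent.Y928.QN
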