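import Mathlib
import Pool.Agent.Y928.QN.Gap

/-!
Multiplicative relations between two algebraic numbers of bounded degree.
-/

set_option autoImplicit false

namespace Pool.Agent.Y928.QN

open Polynomial Pool.Agent.H301R2.TR

/-- a multiplicative relation between two algebraic numbers -/
theorem alg_relation {F : Type*} [Field F] [NumberField F] (φ : F →ₐ[ℚ] ℂ) (x δ : F)
    (hx : 1 < ‖φ x‖) (hδ : 1 < ‖φ δ‖) (l m : ℤ) (h : φ x ^ l * φ δ ^ m = 1)
    (hne : ¬ (l = 0 ∧ m = 0)) :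
    ∃ (u : ℤ) (v : ℕ) (ζ η : F) (k : ℕ), 1 ≤ v ∧
      Real.log ‖φ δ‖ = (u / v : ℝ) * Real.log ‖φ x‖ ∧ 0 < k ∧ ζ ^ k = 1 ∧ x = ζ * η ^ v := by
  have hlx : 0 < Real.log ‖φ x‖ := Real.log_pos hx
  have hlδ : 0 < Real.log ‖φ δ‖ := Real.log_pos hδ
  have hφx0 : ‖φ x‖ ≠ 0 := by linarith
  have hφδ0 : ‖φ δ‖ ≠ 0 := by linarith
  have hx0 : x ≠ 0 := by
    rintro rfl
    simp at hφx0
  have hδ0 : δ ≠ 0 := by
    rintro rfl
    simp at hφδ0
  have h1 : l * Real.log ‖φ x‖ + m * Real.log ‖φ δ‖ = 0 := by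
    have h2 := congrArg norm h
    rw [norm_mul, norm_zpow, norm_zpow, norm_one] at h2
    have h3 := congrArg Real.log h2
    rw [Real.log_one, Real.log_mul (zpow_ne_zero _ hφx0) (zpow_ne_zero _ hφδ0),
      Real.log_zpow, Real.log_zpow] at h3
    exact h3
  have hm : m ≠ 0 := by
    rintro rfl
    apply hne
    refine ⟨?_, rfl⟩
    simp only [Int.cast_zero, zero_mul, add_zero] at h1
    have := (mul_eq_zero.mp h1).resolve_right hlx.ne'
    exact_mod_cast this
  have hF : x ^ l * δ ^ m = 1 := by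
    have : φ (x ^ l * δ ^ m) = φ 1 := by rw [map_mul, map_zpow₀, map_zpow₀, h, map_one]
    exact (φ : F →+* ℂ).injective this
  set s : ℚ := -(l : ℚ) / m with hs
  have hm' : (m : ℝ) ≠ 0 := by exact_mod_cast hm
  have hmQ : (m : ℚ) ≠ 0 := by exact_mod_cast hm
  have hsR : Real.log ‖φ δ‖ = (s : ℝ) * Real.log ‖φ x‖ := by
    rw [hs]; push_cast
    field_simp
    linarith
  have hnd : (s : ℝ) = (s.num : ℝ) / (s.den : ℝ) := by
    exact_mod_cast (Rat.num_div_den s).symm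
  -- the relation is a power of a primitive one
  have hcop : IsCoprime s.num (s.den : ℤ) := by
    rw [Int.isCoprime_iff_gcd_eq_one]
    have := s.reduced
    rw [Int.gcd_eq_natAbs]
    simpa using this
  have hum : s.num * m = -l * s.den := by
    have h2 : (s.num : ℚ) / s.den = -(l : ℚ) / m := by rw [Rat.num_div_den]
    have hden : (s.den : ℚ) ≠ 0 := by exact_mod_cast s.den_ne_zero
    rw [div_eq_div_iff hden hmQ] at h2
    exact_mod_cast h2
  have hdvd : (s.den : ℤ) ∣ m := by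
    have h2 : (s.den : ℤ) ∣ s.num * m := ⟨-l, by rw [hum]; ring⟩
    exact hcop.symm.dvd_of_dvd_mul_left h2
  obtain ⟨g, hg⟩ := hdvd
  have hden0 : (s.den : ℤ) ≠ 0 := by exact_mod_cast s.den_ne_zero
  have hl : l = -(s.num * g) := by
    rw [hg] at hum
    have h2 : (s.den : ℤ) * (s.num * g) = (s.den : ℤ) * (-l) := by linarith
    have h3 := mul_left_cancel₀ hden0 h2
    linarith
  have hg0 : g ≠ 0 := by
    rintro rfl
    rw [mul_zero] at hg
    exact hm hg
  set θ : F := δ ^ (s.den : ℤ) * x ^ (-s.num) with hθ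
  have hθg : θ ^ g = 1 := by
    rw [hθ, mul_zpow, ← zpow_mul, ← zpow_mul, ← hF, hl]
    rw [show -s.num * g = -(s.num * g) by ring, ← hg, mul_comm]
  have hθk : θ ^ g.natAbs = 1 := by
    rcases Int.natAbs_eq g with h2 | h2
    · rw [h2, zpow_natCast] at hθg; exact hθg
    · rw [h2, zpow_neg, zpow_natCast, inv_eq_one] at hθg; exact hθg
  have hθ0 : θ ≠ 0 := mul_ne_zero (zpow_ne_zero _ hδ0) (zpow_ne_zero _ hx0)
  obtain ⟨a, b, hab⟩ := hcop
  refine ⟨s.num, s.den, θ ^ (-a), δ ^ a * x ^ b, g.natAbs, s.den_pos, by rw [← hnd]; exact hsR,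
    Int.natAbs_pos.mpr hg0, ?_, ?_⟩
  · rw [← zpow_natCast, ← zpow_mul, mul_comm (-a), zpow_mul, zpow_natCast, hθk, one_zpow]
  · have e1 : δ ^ (s.den : ℤ) = θ * x ^ s.num := by
      rw [hθ, mul_assoc, ← zpow_add₀ hx0]
      simp
    have e2 : (δ ^ a * x ^ b) ^ s.den = θ ^ a * x := by
      rw [mul_pow, ← zpow_natCast (δ ^ a), ← zpow_natCast (x ^ b), ← zpow_mul, ← zpow_mul,
        mul_comm a, zpow_mul, e1, mul_zpow, mul_assoc, ← zpow_mul, ← zpow_add₀ hx0]
      have : s.num * a + b * (s.den : ℤ) = 1 := by linarith [hab, mul_comm a s.num]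
      rw [this, zpow_one]
    rw [e2, ← mul_assoc, ← zpow_add₀ hθ0]
    simp

theorem v_bound (n : ℕ) : ∃ c : ℝ, 1 < c ∧ ∀ (F : Type) [Field F] [NumberField F]
    (φ : F →ₐ[ℚ] ℂ), Module.finrank ℚ F ≤ n → ∀ (x ζ η : F) (v d k : ℕ) (R0 : ℝ), 0 < d → 1 ≤ R0 →
    IntD d 1 x → (∀ σ : F →ₐ[ℚ] ℂ, ‖σ x‖ ≤ R0) → 0 < k → ζ ^ k = 1 → x = ζ * η ^ v →
    1 < ‖φ x‖ → c ^ v ≤ ((d : ℝ) * R0) ^ n := by
  obtain ⟨s, hs, hgap⟩ := house_gap n
  refine ⟨min 2 s, lt_min (by norm_num) hs, ?_⟩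
  intro F _ _ φ hF x ζ η v d k R0 hd hR0 hint hσ hk hζ hx hφ
  have hc0 : (0 : ℝ) ≤ min 2 s := by
    have : (1 : ℝ) < min 2 s := lt_min (by norm_num) hs
    linarith
  have hd1 : (1 : ℝ) ≤ d := by exact_mod_cast hd
  have hdR : 1 ≤ (d : ℝ) * R0 := one_le_mul_of_one_le_of_one_le hd1 hR0
  have hn : 1 ≤ n := by
    have : 0 < Module.finrank ℚ F := Module.finrank_pos
    omega
  have hx0 : x ≠ 0 := by
    rintro rfl
    rw [map_zero, norm_zero] at hφ
    linarith
  by_cases hη : IsIntegral ℤ η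
  · rcases Nat.eq_zero_or_pos v with hv | hv
    · rw [hv, pow_zero]; exact one_le_pow₀ hdR
    have hη0 : η ≠ 0 := by
      rintro rfl
      apply hx0
      rw [hx, zero_pow hv.ne', mul_zero]
    have htor : ∀ m : ℕ, 0 < m → η ^ m ≠ 1 := by
      intro m hm hηm
      have h1 : x ^ (k * m) = 1 := by
        rw [hx, mul_pow, pow_mul, hζ, one_pow, one_mul, ← pow_mul]
        have : v * (k * m) = m * (v * k) := by ring
        rw [this, pow_mul, hηm, one_pow]
      have h2 : ‖φ x‖ ^ (k * m) = 1 := by rw [← norm_pow, ← map_pow, h1, map_one, norm_one]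
      have h3 : 1 < ‖φ x‖ ^ (k * m) := one_lt_pow₀ hφ (Nat.mul_pos hk hm).ne'
      linarith
    obtain ⟨σ, hσ1⟩ := hgap F hF η hη hη0 htor
    have h1 : ‖σ x‖ = ‖σ η‖ ^ v := by
      have h2 : ‖σ ζ‖ ^ k = 1 := by rw [← norm_pow, ← map_pow, hζ, map_one, norm_one]
      have h3 : ‖σ ζ‖ = 1 := (pow_eq_one_iff_of_nonneg (norm_nonneg _) hk.ne').mp h2
      rw [hx, map_mul, norm_mul, h3, one_mul, map_pow, norm_pow]
    calc (min 2 s) ^ v ≤ s ^ v := pow_le_pow_left₀ hc0 (min_le_right _ _) _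
      _ ≤ ‖σ η‖ ^ v := pow_le_pow_left₀ (by linarith) hσ1.le _
      _ = ‖σ x‖ := h1.symm
      _ ≤ R0 := hσ σ
      _ ≤ (d : ℝ) * R0 := le_mul_of_one_le_left (by linarith) hd1
      _ ≤ ((d : ℝ) * R0) ^ n := le_self_pow₀ hdR (by omega)
  · have h1 := den_gap x ζ η v d k hd hint hk hζ hx hη
    have h2 : (2 : ℝ) ^ v ≤ (d : ℝ) ^ (Module.finrank ℚ F) := by exact_mod_cast h1
    calc (min 2 s) ^ v ≤ 2 ^ v := pow_le_pow_left₀ hc0 (min_le_left _ _) _
      _ ≤ (d : ℝ) ^ (Module.finrank ℚ F) := h2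
      _ ≤ (d : ℝ) ^ n := pow_le_pow_right₀ hd1 hF
      _ ≤ ((d : ℝ) * R0) ^ n :=
        pow_le_pow_left₀ (by linarith) (le_mul_of_one_le_right (by linarith) hR0) _

/-- `x` is a root of a nonzero integer polynomial of degree at most `D` with coefficients of
absolute value at most `H` -/
def AlgHt (D H : ℕ) (x : ℂ) : Prop :=
  ∃ P : ℤ[X], P ≠ 0 ∧ P.natDegree ≤ D ∧ (∀ i, |P.coeff i| ≤ (H : ℤ)) ∧ aeval x P = 0

theorem AlgHt.integral {D H : ℕ} {x : ℂ} (h : AlgHt D H x) :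
    IsIntegral ℚ x ∧ (minpoly ℚ x).natDegree ≤ D := by
  obtain ⟨P, hP, hdeg, -, hroot⟩ := h
  have hinj : Function.Injective (algebraMap ℤ ℚ) := (algebraMap ℤ ℚ).injective_int
  have hP' : P.map (algebraMap ℤ ℚ) ≠ 0 := (Polynomial.map_ne_zero_iff hinj).mpr hP
  have hroot' : aeval x (P.map (algebraMap ℤ ℚ)) = 0 := by
    rw [Polynomial.aeval_map_algebraMap]; exact hroot
  have halg : IsAlgebraic ℚ x := ⟨_, hP', hroot'⟩
  refine ⟨halg.isIntegral, ?_⟩
  refine (Polynomial.natDegree_le_of_dvd (minpoly.dvd ℚ x hroot') hP').trans ?_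
  exact (Polynomial.natDegree_map_le).trans hdeg

theorem algHt_I : AlgHt 2 1 Complex.I := by
  refine ⟨X ^ 2 + 1, ?_, ?_, ?_, ?_⟩
  · intro h
    have := congrArg (fun p : ℤ[X] => p.coeff 2) h
    simp [Polynomial.coeff_X_pow, Polynomial.coeff_one] at this
  · compute_degree
  · intro i
    rw [Polynomial.coeff_add, Polynomial.coeff_X_pow, Polynomial.coeff_one]
    split_ifs with h1 h2 <;> simp_all
  · simp

theorem adjoin_finrank_le {D H : ℕ} {x : ℂ} (h : AlgHt D H x) :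
    Module.finrank ℚ (IntermediateField.adjoin ℚ {x}) ≤ D ∧
      FiniteDimensional ℚ (IntermediateField.adjoin ℚ {x}) := by
  obtain ⟨h1, h2⟩ := h.integral
  refine ⟨?_, IntermediateField.adjoin.finiteDimensional h1⟩
  rw [IntermediateField.adjoin.finrank h1]
  exact h2

theorem exists_field_bounded {D H : ℕ} {x y z : ℂ} (hx : AlgHt D H x) (hy : AlgHt D H y)
    (hz : AlgHt D H z) :
    ∃ (F : Type) (_ : Field F) (_ : NumberField F) (φ : F →ₐ[ℚ] ℂ),
      Module.finrank ℚ F ≤ 2 * (D * (D * D)) ∧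
      (∃ w, φ w = Complex.I) ∧ (∃ w, φ w = x) ∧ (∃ w, φ w = y) ∧ (∃ w, φ w = z) := by
  classical
  obtain ⟨fI, dI⟩ := adjoin_finrank_le algHt_I
  obtain ⟨fx, dx⟩ := adjoin_finrank_le hx
  obtain ⟨fy, dy⟩ := adjoin_finrank_le hy
  obtain ⟨fz, dz⟩ := adjoin_finrank_le hz
  set KI := IntermediateField.adjoin ℚ {Complex.I} with hKI
  set Kx := IntermediateField.adjoin ℚ {x} with hKx
  set Ky := IntermediateField.adjoin ℚ {y} with hKy
  set Kz := IntermediateField.adjoin ℚ {z} with hKz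
  set K := KI ⊔ (Kx ⊔ (Ky ⊔ Kz)) with hK
  have hfd : FiniteDimensional ℚ K := by
    rw [hK]; infer_instance
  have hnf : NumberField K := by
    refine @NumberField.mk _ _ ?_ ?_
    · infer_instance
    · convert hfd
  have hle : Module.finrank ℚ K ≤ 2 * (D * (D * D)) := by
    have h1 := IntermediateField.finrank_sup_le Ky Kz
    have h2 := IntermediateField.finrank_sup_le Kx (Ky ⊔ Kz)
    have h3 := IntermediateField.finrank_sup_le KI (Kx ⊔ (Ky ⊔ Kz))
    calc Module.finrank ℚ K ≤ Module.finrank ℚ KI * Module.finrank ℚ ↥(Kx ⊔ (Ky ⊔ Kz)) := h3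
      _ ≤ 2 * (Module.finrank ℚ Kx * Module.finrank ℚ ↥(Ky ⊔ Kz)) := Nat.mul_le_mul fI h2
      _ ≤ 2 * (D * (Module.finrank ℚ Ky * Module.finrank ℚ Kz)) :=
        Nat.mul_le_mul_left _ (Nat.mul_le_mul fx h1)
      _ ≤ 2 * (D * (D * D)) :=
        Nat.mul_le_mul_left _ (Nat.mul_le_mul_left _ (Nat.mul_le_mul fy fz))
  have hmem : ∀ (w : ℂ) (L : IntermediateField ℚ ℂ), IntermediateField.adjoin ℚ {w} ≤ L → w ∈ L :=
    fun w L h => h (IntermediateField.subset_adjoin ℚ _ (Set.mem_singleton w))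
  have m1 : Complex.I ∈ K := hmem _ _ le_sup_left
  have m2 : x ∈ K := hmem _ _ (le_sup_left.trans le_sup_right)
  have m3 : y ∈ K := hmem _ _ ((le_sup_left.trans le_sup_right).trans le_sup_right)
  have m4 : z ∈ K := hmem _ _ ((le_sup_right.trans le_sup_right).trans le_sup_right)
  refine ⟨K, inferInstance, hnf, (algebraMap K ℂ).toRatAlgHom, ?_, ⟨⟨_, m1⟩, rfl⟩, ⟨⟨_, m2⟩, rfl⟩,
    ⟨⟨_, m3⟩, rfl⟩, ⟨⟨_, m4⟩, rfl⟩⟩
  convert hle

theorem AlgHt.lift {D H : ℕ} {x : ℂ} (h : AlgHt D H x) {F : Type} [Field F] [NumberField F]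
    (φ : F →ₐ[ℚ] ℂ) (w : F) (hw : φ w = x) :
    ∃ d : ℕ, 0 < d ∧ d ≤ H ∧ IntD d 1 w ∧ ∀ σ : F →ₐ[ℚ] ℂ, ‖σ w‖ ≤ H + 1 := by
  obtain ⟨P, hP, -, hcoef, hroot⟩ := h
  have hroot' : aeval w P = 0 := by
    have h1 : aeval (φ w) P = φ (aeval w P) := by
      have := Polynomial.aeval_algHom_apply (φ.restrictScalars ℤ) w P
      simpa using this
    rw [hw, hroot] at h1
    exact (map_eq_zero φ).mp h1.symm
  have hlc : P.leadingCoeff ≠ 0 := Polynomial.leadingCoeff_ne_zero.mpr hP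
  refine ⟨P.leadingCoeff.natAbs, Int.natAbs_pos.mpr hlc, ?_, ?_, ?_⟩
  · have := hcoef P.natDegree
    rw [Polynomial.coeff_natDegree, Int.abs_eq_natAbs] at this
    exact_mod_cast this
  · unfold IntD
    rw [pow_one]
    have h1 : IsIntegral ℤ (P.leadingCoeff • w) := isIntegral_leadingCoeff_smul P w hroot'
    rw [zsmul_eq_mul] at h1
    rcases Int.natAbs_eq P.leadingCoeff with h2 | h2
    · rw [h2] at h1
      simpa using h1
    · rw [h2] at h1
      have := h1.neg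
      simpa using this
  · intro σ
    have h1 : aeval (σ w) P = 0 := by
      have h2 : aeval (σ w) P = σ (aeval w P) := by
        have := Polynomial.aeval_algHom_apply (σ.restrictScalars ℤ) w P
        simpa using this
      rw [h2, hroot', map_zero]
    have hinj : Function.Injective (Int.castRingHom ℂ) := (Int.castRingHom ℂ).injective_int
    have hP' : P.map (Int.castRingHom ℂ) ≠ 0 := (Polynomial.map_ne_zero_iff hinj).mpr hP
    have h3 : (P.map (Int.castRingHom ℂ)).IsRoot (σ w) := by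
      rw [Polynomial.IsRoot, Polynomial.eval_map]
      exact h1
    have h4 := h3.norm_lt_cauchyBound hP'
    have h5 : Polynomial.cauchyBound (P.map (Int.castRingHom ℂ)) ≤ (H : NNReal) + 1 := by
      unfold Polynomial.cauchyBound
      gcongr
      have h6 : 1 ≤ ‖(P.map (Int.castRingHom ℂ)).leadingCoeff‖₊ := by
        rw [Polynomial.leadingCoeff_map_of_injective hinj]
        have h7 : (1 : ℝ) ≤ ‖(Int.castRingHom ℂ) P.leadingCoeff‖ := by
          rw [eq_intCast, Complex.norm_intCast]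
          exact_mod_cast Int.one_le_abs hlc
        exact_mod_cast h7
      refine (div_le_self (by simp) h6).trans ?_
      apply Finset.sup_le
      intro i _
      rw [Polynomial.coeff_map]
      have h7 : ‖(Int.castRingHom ℂ) (P.coeff i)‖ ≤ (H : ℝ) := by
        rw [eq_intCast, Complex.norm_intCast]
        exact_mod_cast hcoef i
      exact_mod_cast h7
    have h8 := h4.le.trans h5
    exact_mod_cast h8

end Pool.Agent.Y928.QN
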