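import Mathlib
import Pool.Agent.Y928.QN.Core
import Pool.Agent.Y928.QN.EIrr
import Pool.Agent.Y928.QN.Rel
import Pool.Agent.H364R2.N1

/-!
Simultaneous approximations of `π e`, `e ^ e`, `π ^ e` by algebraic numbers of bounded degree.
-/

set_option autoImplicit false

namespace Pool.Agent.Y928.QN

open Finset Pool.Agent.H301R2.TR

theorem log_sub_le2 {x y : ℝ} (hx : 1 ≤ x) (hy : 1 ≤ y) : |Real.log x - Real.log y| ≤ |x - y| := by
  have key : ∀ x y : ℝ, 1 ≤ x → 1 ≤ y → Real.log x - Real.log y ≤ |x - y| := by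
    intro x y hx hy
    rw [← Real.log_div (by linarith) (by linarith)]
    have h1 := Real.log_le_sub_one_of_pos (x := x / y) (by positivity)
    have h2 : x / y - 1 = (x - y) / y := by field_simp
    rw [h2] at h1
    refine h1.trans ((le_abs_self _).trans ?_)
    rw [abs_div, abs_of_pos (by linarith : 0 < y)]
    exact div_le_self (abs_nonneg _) hy
  rw [abs_le]
  constructor
  · have := key y x hy hx
    rw [abs_sub_comm] at this
    linarith
  · exact key x y hx hy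

/-- the final comparison with the irrationality measure of `e` -/
theorem fact_lt2 (κ : ℕ) (η c : ℝ) (hc : 1 < c) : ∃ n1 : ℕ, ∀ n ≥ n1, ∀ v : ℕ,
    c ^ v ≤ Real.exp (η * (n : ℝ) ^ κ) →
    ((v + 2).factorial : ℝ) < 4 ^ (n ^ (12 * κ + 4)) := by
  have hlogc : 0 < Real.log c := Real.log_pos hc
  refine ⟨max (κ + 2) (⌈η / Real.log c⌉₊ + 2), fun n hn v hv => ?_⟩
  have hn1 : κ + 2 ≤ n := (le_max_left _ _).trans hn
  have hn2 : ⌈η / Real.log c⌉₊ + 2 ≤ n := (le_max_right _ _).trans hn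
  have hnpos : 0 < n := by omega
  have hv1 : (v : ℝ) ≤ η / Real.log c * (n : ℝ) ^ κ := by
    have e1 : c ^ v = Real.exp (v * Real.log c) := by
      rw [mul_comm, Real.exp_mul, Real.exp_log (by linarith), Real.rpow_natCast]
    rw [e1] at hv
    have h2 := Real.exp_le_exp.mp hv
    rw [div_mul_eq_mul_div, le_div_iff₀ hlogc]
    exact h2
  have hv2 : v + 2 ≤ n ^ (κ + 1) := by
    have h1 : (1 : ℝ) ≤ (n : ℝ) ^ κ := one_le_pow₀ (by exact_mod_cast hnpos)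
    have h2 : η / Real.log c ≤ (⌈η / Real.log c⌉₊ : ℝ) := Nat.le_ceil _
    have h3 : ((⌈η / Real.log c⌉₊ : ℝ) + 2) ≤ n := by exact_mod_cast hn2
    have h4 : ((v + 2 : ℕ) : ℝ) ≤ ((n ^ (κ + 1) : ℕ) : ℝ) := by
      push_cast
      calc (v : ℝ) + 2 ≤ η / Real.log c * (n : ℝ) ^ κ + 2 * (n : ℝ) ^ κ := by nlinarith
        _ = (η / Real.log c + 2) * (n : ℝ) ^ κ := by ring
        _ ≤ n * (n : ℝ) ^ κ := by
          apply mul_le_mul_of_nonneg_right _ (by positivity)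
          linarith
        _ = _ := by ring
    exact_mod_cast h4
  have h5 : (v + 2).factorial ≤ 2 ^ (n ^ (κ + 3)) := by
    calc (v + 2).factorial ≤ (v + 2) ^ (v + 2) := Nat.factorial_le_pow _
      _ ≤ (n ^ (κ + 1)) ^ (v + 2) := Nat.pow_le_pow_left hv2 _
      _ ≤ (n ^ (κ + 1)) ^ (n ^ (κ + 1)) := Nat.pow_le_pow_right (Nat.pow_pos hnpos) hv2
      _ = n ^ ((κ + 1) * n ^ (κ + 1)) := by rw [← pow_mul]
      _ ≤ (2 ^ n) ^ ((κ + 1) * n ^ (κ + 1)) := Nat.pow_le_pow_left (Nat.lt_two_pow_self).le _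
      _ = 2 ^ (n * ((κ + 1) * n ^ (κ + 1))) := by rw [← pow_mul]
      _ ≤ 2 ^ (n * (n * n ^ (κ + 1))) := by
        apply Nat.pow_le_pow_right (by norm_num)
        gcongr
        omega
      _ = 2 ^ (n ^ (κ + 3)) := by congr 1; ring
  have h6 : n ^ (κ + 3) ≤ n ^ (12 * κ + 4) := Nat.pow_le_pow_right hnpos (by omega)
  have h7 : (v + 2).factorial < 4 ^ (n ^ (12 * κ + 4)) := by
    calc (v + 2).factorial ≤ 2 ^ (n ^ (κ + 3)) := h5
      _ ≤ 2 ^ (n ^ (12 * κ + 4)) := Nat.pow_le_pow_right (by norm_num) h6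
      _ < 4 ^ (n ^ (12 * κ + 4)) := Nat.pow_lt_pow_left (by norm_num) (Nat.pow_pos hnpos).ne'
  exact_mod_cast h7

theorem app2 (D κ : ℕ) (hκ : 1 ≤ κ) : ∃ η : ℝ, 0 < η ∧ ∃ C5 : ℝ, 1 ≤ C5 ∧ ∃ n1 : ℕ, ∀ n ≥ n1,
    ∀ H : ℕ, 1 ≤ H → (H : ℝ) ^ 3 * ((H : ℝ) + 1) ^ 2 ≤ Real.exp (η * (n : ℝ) ^ κ) → ∀ p a b : ℂ,
    AlgHt D H p → AlgHt D H a → AlgHt D H b →
    ‖((Real.pi * Real.exp 1 : ℝ) : ℂ) - p‖ * C5 ≤ (1 / 4 : ℝ) ^ (n ^ (12 * κ + 4)) →
    ‖((Real.pi ^ Real.exp 1 : ℝ) : ℂ) - a‖ * C5 ≤ (1 / 4 : ℝ) ^ (n ^ (12 * κ + 4)) →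
    ‖((Real.exp 1 ^ Real.exp 1 : ℝ) : ℂ) - b‖ * C5 ≤ (1 / 4 : ℝ) ^ (n ^ (12 * κ + 4)) →
    False := by
  classical
  have hpi := Real.pi_pos
  have hpi3 := Real.pi_gt_three
  have he1 : 2 < Real.exp 1 := by have := Real.exp_one_gt_d9; linarith
  set ρ : ℝ := 1 + Real.log Real.pi with hρ
  set Dg : ℕ := 2 * (D * (D * D)) with hDg
  obtain ⟨η, hη, n0, hcore⟩ := coreQ Pool.Agent.H364R2.ze1 (Real.exp 1) ρ κ Dg hκ
  obtain ⟨c, hc, hvb⟩ := v_bound Dg
  obtain ⟨n2, hn2⟩ := fact_lt2 κ (Dg * η) c hc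
  set P : ℝ := Real.pi * Real.exp 1 with hP
  set A : ℝ := Real.pi ^ Real.exp 1 with hA
  set B : ℝ := Real.exp 1 ^ Real.exp 1 with hB
  have hBe : B = Real.exp (Real.exp 1) := by
    rw [hB, ← Real.exp_one_rpow (Real.exp 1)]
  have hρP : Real.exp ρ = P := by
    rw [hρ, Real.exp_add, Real.exp_log hpi, mul_comm]
  have hDe : Real.exp (Real.exp 1 * ρ) = A * B := by
    rw [hBe, hA, Real.rpow_def_of_pos hpi, ← Real.exp_add]
    congr 1; rw [hρ]; ring
  have hP1 : Real.exp 1 + 1 ≤ P := by rw [hP]; nlinarith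
  have hA1 : 3 ≤ A := by
    rw [hA]
    calc (3 : ℝ) ≤ Real.pi ^ (1 : ℝ) := by rw [Real.rpow_one]; linarith
      _ ≤ _ := Real.rpow_le_rpow_of_exponent_le (by linarith) (by linarith)
  have hB1 : 3 ≤ B := by
    rw [hBe]
    have := Real.add_one_le_exp (Real.exp 1)
    linarith
  set C5 : ℝ := 2 + P + (A + 1) * (B + 1) + A + B + Real.exp 1 with hC5
  have hAB : 0 ≤ (A + 1) * (B + 1) := by positivity
  have hC51 : 1 ≤ C5 := by rw [hC5]; linarith
  refine ⟨η, hη, C5, hC51, max n0 n2, ?_⟩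
  intro n hn H hH hHn p a b hpd had hbd hp ha hb
  have hnn0 : n0 ≤ n := (le_max_left _ _).trans hn
  have hnn2 : n2 ≤ n := (le_max_right _ _).trans hn
  set ε : ℝ := (1 / 4 : ℝ) ^ (n ^ (12 * κ + 4)) with hε
  have hε0 : 0 < ε := by positivity
  have hε1 : ε ≤ 1 := pow_le_one₀ (by norm_num) (by norm_num)
  have small : ∀ x : ℂ, ‖x‖ * C5 ≤ ε → ‖x‖ ≤ ε ∧ ‖x‖ ≤ ε / C5 := by
    intro x hx
    have h1 : ‖x‖ ≤ ε / C5 := by
      rw [le_div_iff₀ (by linarith)]; exact hx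
    refine ⟨h1.trans ?_, h1⟩
    exact div_le_self hε0.le hC51
  obtain ⟨hp1, hp2⟩ := small _ hp
  obtain ⟨ha1, ha2⟩ := small _ ha
  obtain ⟨hb1, hb2⟩ := small _ hb
  -- sizes
  have nrm : ∀ (t : ℝ) (w : ℂ), 0 ≤ t → |‖w‖ - t| ≤ ‖(t : ℂ) - w‖ := by
    intro t w ht
    have h1 := abs_norm_sub_norm_le w (t : ℂ)
    rw [Complex.norm_real, Real.norm_eq_abs, abs_of_nonneg ht, norm_sub_rev] at h1
    exact h1
  have qp := nrm P p (by linarith)
  have qa := nrm A a (by linarith)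
  have qb := nrm B b (by linarith)
  have hpl : Real.exp 1 ≤ ‖p‖ := by
    have := (abs_le.mp (qp.trans hp1)).1
    linarith
  have hal : (2 : ℝ) ≤ ‖a‖ := by
    have := (abs_le.mp (qa.trans ha1)).1
    linarith
  have hbl : (2 : ℝ) ≤ ‖b‖ := by
    have := (abs_le.mp (qb.trans hb1)).1
    linarith
  have hbu : ‖b‖ ≤ B + 1 := by
    have := (abs_le.mp (qb.trans hb1)).2
    linarith
  have hdiff : ‖((A * B : ℝ) : ℂ) - a * b‖ ≤ (ε / C5) * (A + B + 1) := by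
    have e1 : ((A * B : ℝ) : ℂ) - a * b = ((A : ℂ) - a) * b + (A : ℂ) * ((B : ℂ) - b) := by
      push_cast; ring
    rw [e1]
    refine (norm_add_le _ _).trans ?_
    rw [norm_mul, norm_mul, Complex.norm_real, Real.norm_eq_abs, abs_of_pos (by linarith : 0 < A)]
    calc ‖(A : ℂ) - a‖ * ‖b‖ + A * ‖(B : ℂ) - b‖ ≤ (ε / C5) * (B + 1) + A * (ε / C5) := by
          gcongr
      _ = _ := by ring
  have hdiff' : ‖((A * B : ℝ) : ℂ) - a * b‖ ≤ ε := by
    refine hdiff.trans ?_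
    rw [div_mul_eq_mul_div, div_le_iff₀ (by linarith)]
    apply mul_le_mul_of_nonneg_left _ hε0.le
    rw [hC5]; linarith
  -- the field elements
  obtain ⟨F, _, _, φ, hF, ⟨y, hy⟩, ⟨xp, hxp⟩, ⟨xa, hxa⟩, ⟨xb, hxb⟩⟩ :=
    exists_field_bounded hpd had hbd
  obtain ⟨dp, dp0, dpH, ip, cp⟩ := hpd.lift φ xp hxp
  obtain ⟨da, da0, daH, ia, ca⟩ := had.lift φ xa hxa
  obtain ⟨db, db0, dbH, ib, cb⟩ := hbd.lift φ xb hxb
  have hy2 : y ^ 2 = -1 := by
    have h1 : φ (y ^ 2) = φ (-1) := by rw [map_pow, hy, map_neg, map_one, Complex.I_sq]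
    exact (φ : F →+* ℂ).injective h1
  have hyint : IsIntegral ℤ y := by
    refine ⟨Polynomial.X ^ 2 + 1, by monicity!, ?_⟩
    simp [hy2]
  have hσy : ∀ σ : F →ₐ[ℚ] ℂ, ‖σ y‖ = 1 := by
    intro σ
    have h1 : (σ y) ^ 2 = -1 := by rw [← map_pow, hy2, map_neg, map_one]
    have h2 : ‖σ y‖ ^ 2 = 1 := by rw [← norm_pow, h1, norm_neg, norm_one]
    exact (pow_eq_one_iff_of_nonneg (norm_nonneg (σ y)) (by norm_num)).mp h2
  set d : ℕ := dp * (da * db) with hd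
  have hdpos : 0 < d := Nat.mul_pos dp0 (Nat.mul_pos da0 db0)
  have hdH : (d : ℝ) ≤ (H : ℝ) ^ 3 := by
    have : d ≤ H ^ 3 := by
      calc d ≤ H * (H * H) := Nat.mul_le_mul dpH (Nat.mul_le_mul daH dbH)
        _ = _ := by ring
    exact_mod_cast this
  have lift : ∀ (d1 k : ℕ) (w : F), IntD d1 1 w → IntD (d1 * k) 1 w := by
    intro d1 k w h
    unfold IntD at *
    have e : (((d1 * k : ℕ) : F)) ^ 1 * w = (k : F) * ((d1 : F) ^ 1 * w) := by
      push_cast; ring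
    rw [e]
    exact (isIntegral_natCast' k).mul h
  have Ip : IntD d 1 xp := lift _ _ _ ip
  have Ib : IntD d 1 xb := by
    have := lift db (dp * da) xb ib
    have e : db * (dp * da) = d := by rw [hd]; ring
    rwa [e] at this
  have Iab : IntD d 1 (xa * xb) := by
    have h1 : IntD (da * db) 1 (xa * xb) := by
      unfold IntD at *
      have e : (((da * db : ℕ) : F)) ^ 1 * (xa * xb) =
          ((da : F) ^ 1 * xa) * ((db : F) ^ 1 * xb) := by
        push_cast; ring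
      rw [e]
      exact ia.mul ib
    have := lift (da * db) dp _ h1
    have e : da * db * dp = d := by rw [hd]; ring
    rwa [e] at this
  have Iq : IntD d 1 (y * xp) := by
    have := (IntD.of_int (d := d) hyint).mul Ip
    simpa using this
  have hH0 : (0 : ℝ) ≤ H := Nat.cast_nonneg _
  set R0 : ℝ := ((H : ℝ) + 1) ^ 2 with hR0
  have hR01 : 1 ≤ R0 := one_le_pow₀ (by linarith)
  have hR0H : (H : ℝ) + 1 ≤ R0 := le_self_pow₀ (by linarith) (by norm_num)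
  have hdR : (d : ℝ) * R0 ≤ Real.exp (η * (n : ℝ) ^ κ) :=
    (mul_le_mul_of_nonneg_right hdH (by linarith)).trans hHn
  have hab1 : (1 : ℝ) < ‖a * b‖ := by
    rw [norm_mul]
    have := mul_le_mul hal hbl (by norm_num) (by linarith : (0 : ℝ) ≤ ‖a‖)
    linarith
  have hφab : φ (xa * xb) = a * b := by rw [map_mul, hxa, hxb]
  refine hcore n hnn0 F φ hF (y * xp) xp xb (xa * xb) d R0 hdpos hR01
    hdR Iq Ip Ib Iab ?_ ?_ ?_ ?_ ?_ ?_ ?_ ?_ ?_ ?_ ?_
  · intro σ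
    refine ⟨?_, ?_, ?_, ?_⟩
    · rw [map_mul, norm_mul, hσy, one_mul]; exact (cp σ).trans hR0H
    · exact (cp σ).trans hR0H
    · exact (cb σ).trans hR0H
    · rw [map_mul, norm_mul, hR0, sq]
      exact mul_le_mul (ca σ) (cb σ) (norm_nonneg _) (by linarith)
  · rw [hxb]
    intro h
    rw [h, norm_zero] at hbl
    linarith
  · rw [hφab]
    intro h
    rw [h, norm_zero] at hab1
    linarith
  · rw [hxp]
    intro h
    rw [h, norm_zero] at hpl
    linarith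
  · rw [map_mul, hy, hxp]
    refine mul_ne_zero Complex.I_ne_zero ?_
    intro h
    rw [h, norm_zero] at hpl
    linarith
  · intro m hm
    rw [hxb] at hm
    have h1 : ‖b‖ ^ m = 1 := by rw [← norm_zpow, hm, norm_one]
    exact (zpow_eq_one_iff_right₀ (norm_nonneg b) (by linarith : ‖b‖ ≠ 1)).mp h1
  · intro l m hlm
    by_contra hne
    have hxp1 : 1 < ‖φ xp‖ := by rw [hxp]; linarith
    obtain ⟨u, v, ζ, θ, k, hv, huv, hk, hζ, hxe⟩ := alg_relation φ xp (xa * xb)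
      hxp1 (by rw [hφab]; exact hab1) l m hlm hne
    rw [hφab, hxp] at huv
    -- the bound for `v`
    have hv1 := hvb F φ hF xp ζ θ v d k R0 hdpos hR01 Ip (fun σ => (cp σ).trans hR0H) hk hζ hxe hxp1
    have hd1 : (0 : ℝ) ≤ (d : ℝ) * R0 := mul_nonneg (Nat.cast_nonneg _) (by linarith)
    have hv2 : c ^ v ≤ Real.exp ((Dg * η) * (n : ℝ) ^ κ) := by
      calc c ^ v ≤ ((d : ℝ) * R0) ^ Dg := hv1
        _ ≤ (Real.exp (η * (n : ℝ) ^ κ)) ^ Dg := pow_le_pow_left₀ hd1 hdR _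
        _ = _ := by rw [← Real.exp_nat_mul]; congr 1; ring
    have hfac := hn2 n hnn2 v hv2
    -- closeness
    have hlogP : Real.log P = ρ := by rw [← hρP, Real.log_exp]
    have hlogAB : Real.log (A * B) = Real.exp 1 * ρ := by rw [← hDe, Real.log_exp]
    have c1 : |Real.log ‖p‖ - ρ| ≤ ε / C5 := by
      rw [← hlogP]
      exact (log_sub_le2 (by linarith) (by linarith)).trans (qp.trans hp2)
    have c2 : |Real.log ‖a * b‖ - Real.exp 1 * ρ| ≤ (ε / C5) * (A + B + 1) := by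
      rw [← hlogAB]
      have hAB1 : 1 ≤ A * B := one_le_mul_of_one_le_of_one_le (by linarith) (by linarith)
      exact (log_sub_le2 hab1.le hAB1).trans ((nrm (A * B) (a * b) (by linarith)).trans hdiff)
    have c3 : ((u / v : ℝ) - Real.exp 1) * Real.log ‖p‖ =
        (Real.log ‖a * b‖ - Real.exp 1 * ρ) - Real.exp 1 * (Real.log ‖p‖ - ρ) := by
      rw [huv]; ring
    have c4 : |((u / v : ℝ) - Real.exp 1) * Real.log ‖p‖| ≤ ε := by
      rw [c3]
      refine (abs_sub _ _).trans ?_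
      rw [abs_mul, abs_of_pos (by linarith : 0 < Real.exp 1)]
      calc |Real.log ‖a * b‖ - Real.exp 1 * ρ| + Real.exp 1 * |Real.log ‖p‖ - ρ|
          ≤ (ε / C5) * (A + B + 1) + Real.exp 1 * (ε / C5) := by gcongr
        _ = ε * (A + B + 1 + Real.exp 1) / C5 := by ring
        _ ≤ ε := by
          rw [div_le_iff₀ (by linarith)]
          apply mul_le_mul_of_nonneg_left _ hε0.le
          rw [hC5]; linarith
    have c5 : 1 ≤ Real.log ‖p‖ := by
      rw [← Real.log_exp 1]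
      exact Real.log_le_log (Real.exp_pos 1) hpl
    have c6 : |Real.exp 1 - u / v| ≤ ε := by
      rw [abs_mul, abs_of_pos (by linarith : 0 < Real.log ‖p‖)] at c4
      rw [abs_sub_comm]
      exact le_trans (le_mul_of_one_le_right (abs_nonneg _) c5) c4
    have c7 := e_irr u v hv
    have hfpos : (0 : ℝ) < ((v + 2).factorial : ℝ) := by exact_mod_cast Nat.factorial_pos _
    have c8 : 1 / ((v + 2).factorial : ℝ) ≤ ε := c7.trans c6
    have c9 : ε < 1 / ((v + 2).factorial : ℝ) := by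
      have e1 : ε = 1 / (4 : ℝ) ^ (n ^ (12 * κ + 4)) := by
        rw [hε, div_pow, one_pow]
      rw [e1]
      exact one_div_lt_one_div_of_lt hfpos hfac
    linarith
  · rw [map_mul, hy, hxp]
    have e1 : Complex.I * p - Complex.I * Real.pi * (Real.exp 1 : ℝ) =
        -(Complex.I * ((P : ℂ) - p)) := by
      rw [hP]; push_cast; ring
    rw [e1, norm_neg, norm_mul, Complex.norm_I, one_mul]
    exact hp1
  · rw [hxp]
    have e1 : p - Complex.exp ρ = -((P : ℂ) - p) := by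
      rw [← hρP]; push_cast; ring
    rw [e1, norm_neg]
    exact hp1
  · rw [hxb]
    have e1 : b - Complex.exp ((Real.exp 1 : ℝ) : ℂ) = -((B : ℂ) - b) := by
      rw [hBe, Complex.ofReal_exp (Real.exp 1)]
      ring
    rw [e1, norm_neg]
    exact hb1
  · rw [hφab]
    have e1 : a * b - Complex.exp ((Real.exp 1 : ℝ) * ρ) = -(((A * B : ℝ) : ℂ) - a * b) := by
      rw [← hDe, Complex.ofReal_exp (Real.exp 1 * ρ)]
      push_cast; ring
    rw [e1, norm_neg]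
    exact hdiff'

/-- simultaneous approximations of `π e`, `π ^ e`, `e ^ e` by algebraic numbers of bounded
degree -/
theorem main2 (D : ℕ) (τ : ℝ) (hτ : 0 < τ) : ∃ C : ℝ, 0 < C ∧ ∀ H : ℕ, 3 ≤ H → ∀ p a b : ℂ,
    AlgHt D H p → AlgHt D H a → AlgHt D H b →
    Real.exp (-(C * Real.log H ^ (12 + τ))) ≤ max ‖((Real.pi * Real.exp 1 : ℝ) : ℂ) - p‖
      (max ‖((Real.pi ^ Real.exp 1 : ℝ) : ℂ) - a‖ ‖((Real.exp 1 ^ Real.exp 1 : ℝ) : ℂ) - b‖) := by
  set κ : ℕ := ⌈4 / τ⌉₊ with hκ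
  have hκ1 : 1 ≤ κ := Nat.ceil_pos.mpr (by positivity)
  have hκ0 : (0 : ℝ) < κ := by exact_mod_cast hκ1
  have hκτ : 4 / (κ : ℝ) ≤ τ := by
    have h1 : 4 / τ ≤ κ := Nat.le_ceil _
    rw [div_le_iff₀ hτ] at h1
    rw [div_le_iff₀ hκ0]
    linarith
  obtain ⟨η, hη, C5, hC5, n1, happ⟩ := app2 D κ hκ1
  have hlC5 : 0 ≤ Real.log C5 := Real.log_nonneg hC5
  set M0 : ℝ := 1 + n1 + 7 / η with hM0
  have hM01 : 1 ≤ M0 := by
    have : 0 ≤ 7 / η := by positivity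
    have : (0 : ℝ) ≤ n1 := Nat.cast_nonneg _
    rw [hM0]; linarith
  have hM0n : (n1 : ℝ) ≤ M0 := by
    have : 0 ≤ 7 / η := by positivity
    rw [hM0]; linarith
  have hM0C : 7 / η ≤ M0 := by
    have : (0 : ℝ) ≤ n1 := Nat.cast_nonneg _
    rw [hM0]; linarith
  have hlog4 : 0 < Real.log 4 := Real.log_pos (by norm_num)
  set C : ℝ := (M0 + 1) ^ (12 * κ + 4) * Real.log 4 + Real.log C5 with hC
  have hCpos : 0 < C := by
    have : 0 < (M0 + 1) ^ (12 * κ + 4) * Real.log 4 := by positivity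
    rw [hC]; linarith
  refine ⟨C, hCpos, fun H hH p a b hp ha hb => ?_⟩
  by_contra hcon
  push Not at hcon
  rw [max_lt_iff, max_lt_iff] at hcon
  obtain ⟨h1, h2, h3⟩ := hcon
  set L : ℝ := Real.log H with hL
  have hHpos : (0 : ℝ) < H := by
    have : 0 < H := by omega
    exact_mod_cast this
  have hH3 : (3 : ℝ) ≤ H := by exact_mod_cast hH
  have hL1 : 1 ≤ L := by
    rw [hL, ← Real.log_exp 1]
    apply Real.log_le_log (Real.exp_pos 1)
    have := Real.exp_one_lt_d9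
    linarith
  have hL0 : 0 ≤ L := by linarith
  set r : ℝ := L ^ (1 / (κ : ℝ)) with hr
  have hr1 : 1 ≤ r := Real.one_le_rpow hL1 (by positivity)
  have hrκ : r ^ κ = L := by
    rw [hr, ← Real.rpow_natCast, ← Real.rpow_mul hL0]
    rw [one_div, inv_mul_cancel₀ hκ0.ne', Real.rpow_one]
  set n : ℕ := ⌈M0 * r⌉₊ with hn
  have hnl : M0 * r ≤ n := Nat.le_ceil _
  have hnu : (n : ℝ) ≤ (M0 + 1) * r := by
    have := Nat.ceil_lt_add_one (a := M0 * r) (by positivity)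
    rw [← hn] at this
    nlinarith
  have hM0r : M0 ≤ M0 * r := le_mul_of_one_le_right (by linarith) hr1
  have hnn1 : n1 ≤ n := by
    have : (n1 : ℝ) ≤ n := hM0n.trans (hM0r.trans hnl)
    exact_mod_cast this
  have hnκ : M0 * L ≤ (n : ℝ) ^ κ := by
    calc M0 * L ≤ M0 ^ κ * L := by
          apply mul_le_mul_of_nonneg_right _ hL0
          exact le_self_pow₀ hM01 (by omega)
      _ = (M0 * r) ^ κ := by rw [mul_pow, hrκ]
      _ ≤ _ := pow_le_pow_left₀ (by positivity) hnl _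
  have hHn : (H : ℝ) ^ 3 * ((H : ℝ) + 1) ^ 2 ≤ Real.exp (η * (n : ℝ) ^ κ) := by
    have e1 : (H : ℝ) ^ 3 * ((H : ℝ) + 1) ^ 2 ≤ (H : ℝ) ^ 7 := by
      have h4 : (H : ℝ) + 1 ≤ (H : ℝ) ^ 2 := by nlinarith
      calc (H : ℝ) ^ 3 * ((H : ℝ) + 1) ^ 2 ≤ (H : ℝ) ^ 3 * ((H : ℝ) ^ 2) ^ 2 := by gcongr
        _ = _ := by ring
    have e2 : (H : ℝ) ^ 7 = Real.exp (7 * L) := by
      rw [mul_comm 7 L, Real.exp_mul, hL, Real.exp_log hHpos]
      norm_num
    refine e1.trans ?_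
    rw [e2]
    apply Real.exp_le_exp.mpr
    calc 7 * L = η * (7 / η * L) := by field_simp
      _ ≤ η * (M0 * L) := by gcongr
      _ ≤ _ := by gcongr
  have hQ : (n : ℝ) ^ (12 * κ + 4) ≤ (M0 + 1) ^ (12 * κ + 4) * L ^ (12 + τ) := by
    calc (n : ℝ) ^ (12 * κ + 4) ≤ ((M0 + 1) * r) ^ (12 * κ + 4) :=
          pow_le_pow_left₀ (Nat.cast_nonneg _) hnu _
      _ = (M0 + 1) ^ (12 * κ + 4) * r ^ (12 * κ + 4) := by rw [mul_pow]
      _ ≤ _ := by
        apply mul_le_mul_of_nonneg_left _ (by positivity)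
        rw [hr, ← Real.rpow_natCast, ← Real.rpow_mul hL0]
        apply Real.rpow_le_rpow_of_exponent_le hL1
        push_cast
        have : 1 / (κ : ℝ) * (12 * κ + 4) = 12 + 4 / κ := by field_simp
        rw [this]
        linarith
  have hLτ : 1 ≤ L ^ (12 + τ) := Real.one_le_rpow hL1 (by linarith)
  have hbound : Real.exp (-(C * L ^ (12 + τ))) * C5 ≤ (1 / 4 : ℝ) ^ (n ^ (12 * κ + 4)) := by
    have e1 : (1 / 4 : ℝ) ^ (n ^ (12 * κ + 4)) =
        Real.exp (-(Real.log 4 * (n : ℝ) ^ (12 * κ + 4))) := by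
      have e2 : ((n : ℝ) ^ (12 * κ + 4)) = ((n ^ (12 * κ + 4) : ℕ) : ℝ) := by push_cast; rfl
      rw [Real.exp_neg, e2, mul_comm (Real.log 4), Real.exp_nat_mul, Real.exp_log (by norm_num),
        one_div, inv_pow]
    have e3 : Real.exp (-(C * L ^ (12 + τ))) * C5 =
        Real.exp (-(C * L ^ (12 + τ)) + Real.log C5) := by
      rw [Real.exp_add, Real.exp_log (by linarith)]
    rw [e1, e3]
    apply Real.exp_le_exp.mpr
    have e4 : C * L ^ (12 + τ) = (M0 + 1) ^ (12 * κ + 4) * L ^ (12 + τ) * Real.log 4 +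
        Real.log C5 * L ^ (12 + τ) := by rw [hC]; ring
    have e5 : Real.log C5 ≤ Real.log C5 * L ^ (12 + τ) := le_mul_of_one_le_right hlC5 hLτ
    have e6 : (n : ℝ) ^ (12 * κ + 4) * Real.log 4 ≤
        (M0 + 1) ^ (12 * κ + 4) * L ^ (12 + τ) * Real.log 4 :=
      mul_le_mul_of_nonneg_right hQ hlog4.le
    linarith
  have hC50 : 0 < C5 := by linarith
  refine happ n hnn1 H (by omega) hHn p a b hp ha hb ?_ ?_ ?_
  · exact (mul_le_mul_of_nonneg_right h1.le hC50.le).trans hbound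
  · exact (mul_le_mul_of_nonneg_right h2.le hC50.le).trans hbound
  · exact (mul_le_mul_of_nonneg_right h3.le hC50.le).trans hbound

end Pool.Agent.Y928.QN
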